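import Pool.Agent.NH11.RM.Lp

set_option autoImplicit false

/-! # Integrals over a circle -/

namespace Pool.Agent.NH11.RM

open MeasureTheory Finset
open scoped ENNReal

/-- the unit interval -/
noncomputable def mu : Measure ℝ := volume.restrict (Set.Ioc (-(1 / 2)) (1 / 2))

instance : IsProbabilityMeasure mu := by
  constructor
  unfold mu
  rw [Measure.restrict_apply_univ, Real.volume_Ioc]
  norm_num

/-- the point of the circle of radius `r` -/
noncomputable def zz (r t : ℝ) : ℂ := (r : ℂ) * Complex.exp ((2 * Real.pi * t : ℝ) * Complex.I)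

lemma zz_cont (r : ℝ) : Continuous (zz r) := by unfold zz; fun_prop

lemma norm_zz {r : ℝ} (hr : 0 ≤ r) (t : ℝ) : ‖zz r t‖ = r := by
  unfold zz
  rw [norm_mul, Complex.norm_exp_ofReal_mul_I, mul_one, Complex.norm_real, Real.norm_of_nonneg hr]

lemma zz_pow (r t : ℝ) (n : ℕ) :
    zz r t ^ n = ((r ^ n : ℝ) : ℂ) * Complex.exp ((2 * Real.pi * (n * t) : ℝ) * Complex.I) := by
  unfold zz
  rw [mul_pow, ← Complex.exp_nat_mul]
  push_cast
  congr 2
  ring

lemma normSq_sum {ι : Type*} (S : Finset ι) (c θ : ι → ℝ) :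
    ‖∑ a ∈ S, (c a : ℂ) * Complex.exp ((θ a : ℝ) * Complex.I)‖ ^ 2 =
      ∑ a ∈ S, ∑ b ∈ S, c a * c b * Real.cos (θ a - θ b) := by
  have h1 : ∀ a, (c a : ℂ) * Complex.exp ((θ a : ℝ) * Complex.I) =
      ((c a * Real.cos (θ a) : ℝ) : ℂ) + ((c a * Real.sin (θ a) : ℝ) : ℂ) * Complex.I := by
    intro a
    rw [Complex.exp_mul_I, ← Complex.ofReal_cos, ← Complex.ofReal_sin]
    push_cast
    ring
  simp_rw [h1]
  rw [Finset.sum_add_distrib, ← Finset.sum_mul, ← Complex.ofReal_sum, ← Complex.ofReal_sum,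
    ← Complex.normSq_eq_norm_sq, Complex.normSq_add_mul_I, sq, sq, Finset.sum_mul_sum,
    Finset.sum_mul_sum, ← Finset.sum_add_distrib]
  refine Finset.sum_congr rfl fun a _ => ?_
  rw [← Finset.sum_add_distrib]
  refine Finset.sum_congr rfl fun b _ => ?_
  rw [Real.cos_sub]
  ring

lemma int_cos_int (n : ℤ) : ∫ t in (-(1 / 2 : ℝ))..(1 / 2), Real.cos (2 * Real.pi * (n * t)) =
    if n = 0 then 1 else 0 := by
  split_ifs with h
  · subst h
    simp
    norm_num
  · have hpi := Real.pi_pos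
    have hn : (2 * Real.pi * (n : ℝ)) ≠ 0 := by
      have : (n : ℝ) ≠ 0 := by exact_mod_cast h
      positivity
    have h2 : ∀ x ∈ Set.uIcc (-(1 / 2 : ℝ)) (1 / 2), HasDerivAt
        (fun x : ℝ => Real.sin ((2 * Real.pi * n) * x) / (2 * Real.pi * n))
        (Real.cos (2 * Real.pi * (n * x))) x := by
      intro x _
      have h3 : HasDerivAt (fun x : ℝ => (2 * Real.pi * n) * x) (2 * Real.pi * n) x := by
        simpa using (hasDerivAt_id x).const_mul (2 * Real.pi * (n : ℝ))
      have := h3.sin.div_const (2 * Real.pi * n)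
      refine this.congr_deriv ?_
      rw [show 2 * Real.pi * (n * x) = 2 * Real.pi * n * x by ring]
      field_simp
    rw [intervalIntegral.integral_eq_sub_of_hasDerivAt h2
      ((by fun_prop : Continuous fun x : ℝ => Real.cos (2 * Real.pi * (n * x))).intervalIntegrable
        _ _)]
    have e1 : (2 * Real.pi * (n : ℝ)) * (1 / 2) = n * Real.pi := by ring
    have e2 : (2 * Real.pi * (n : ℝ)) * (-(1 / 2)) = (-n : ℤ) * Real.pi := by push_cast; ring
    rw [e1, e2, Real.sin_int_mul_pi, Real.sin_int_mul_pi]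
    simp

/-- orthogonality -/
theorem parseval (S : Finset ℕ) {r : ℝ} (j : ℕ) (hj : 1 ≤ j) :
    II mu 1 (fun t => ∑ a ∈ S, (zz r t ^ a) ^ j) = ENNReal.ofReal (∑ a ∈ S, r ^ (2 * (a * j))) := by
  have h0 : ∀ t, ‖∑ a ∈ S, (zz r t ^ a) ^ j‖ ^ 2 = ∑ a ∈ S, ∑ b ∈ S, r ^ (a * j) * r ^ (b * j) *
      Real.cos (2 * Real.pi * (((a * j : ℕ) - (b * j : ℕ) : ℤ) * t)) := by
    intro t
    have e : ∀ a, (zz r t ^ a) ^ j = ((r ^ (a * j) : ℝ) : ℂ) *
        Complex.exp ((2 * Real.pi * ((a * j : ℕ) * t) : ℝ) * Complex.I) := by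
      intro a
      rw [← pow_mul, zz_pow]
    simp_rw [e]
    rw [normSq_sum S (fun a => r ^ (a * j)) (fun a => 2 * Real.pi * ((a * j : ℕ) * t))]
    refine Finset.sum_congr rfl fun a _ => Finset.sum_congr rfl fun b _ => ?_
    congr 2
    push_cast
    ring
  have hc : Continuous fun t => ‖∑ a ∈ S, (zz r t ^ a) ^ j‖ ^ 2 := by
    have := zz_cont r
    fun_prop
  have h1 : II mu 1 (fun t => ∑ a ∈ S, (zz r t ^ a) ^ j) =
      ∫⁻ t in Set.Ioc (-(1 / 2 : ℝ)) (1 / 2), ENNReal.ofReal (‖∑ a ∈ S, (zz r t ^ a) ^ j‖ ^ 2) := by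
    unfold II mu
    refine lintegral_congr fun t => ?_
    rw [ENNReal.ofReal_pow (norm_nonneg _), ofReal_norm_eq_enorm]
    norm_num
  rw [h1, ← ofReal_integral_eq_lintegral_ofReal]
  · congr 1
    rw [← intervalIntegral.integral_of_le (by norm_num)]
    simp_rw [h0]
    have hi : ∀ a b : ℕ, IntervalIntegrable (fun t : ℝ => r ^ (a * j) * r ^ (b * j) *
        Real.cos (2 * Real.pi * (((a * j : ℕ) - (b * j : ℕ) : ℤ) * t))) volume (-(1 / 2)) (1 / 2) :=
      fun a b => (by fun_prop : Continuous fun t : ℝ => r ^ (a * j) * r ^ (b * j) *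
        Real.cos (2 * Real.pi * (((a * j : ℕ) - (b * j : ℕ) : ℤ) * t))).intervalIntegrable _ _
    rw [intervalIntegral.integral_finset_sum fun a _ =>
      (by fun_prop : Continuous fun t : ℝ => ∑ b ∈ S, r ^ (a * j) * r ^ (b * j) *
        Real.cos (2 * Real.pi * (((a * j : ℕ) - (b * j : ℕ) : ℤ) * t))).intervalIntegrable _ _]
    refine Finset.sum_congr rfl fun a ha => ?_
    rw [intervalIntegral.integral_finset_sum fun b _ => hi a b]
    rw [Finset.sum_eq_single a]
    · rw [intervalIntegral.integral_const_mul, int_cos_int, if_pos (by ring), mul_one, ← pow_add]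
      congr 1
      ring
    · intro b _ hb
      rw [intervalIntegral.integral_const_mul, int_cos_int, if_neg, mul_zero]
      intro h
      apply hb
      have h2 : (a * j : ℕ) = (b * j : ℕ) := by omega
      exact (Nat.eq_of_mul_eq_mul_right (by omega) h2).symm
    · intro h; exact absurd ha h
  · exact (hc.integrableOn_Icc (a := -(1 / 2)) (b := 1 / 2)).mono_set Set.Ioc_subset_Icc_self
  · exact Filter.Eventually.of_forall fun t => by positivity

/-- lower bound for the distance to `1` -/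
lemma dist_one {r : ℝ} (hr : 1 / 2 ≤ r) (hr1 : r ≤ 1) {t : ℝ} (ht : |t| ≤ 1 / 2) :
    |t| ≤ ‖1 - zz r t‖ ∧ 1 - r ≤ ‖1 - zz r t‖ := by
  have hpi := Real.pi_pos
  constructor
  · have h1 : ‖1 - zz r t‖ ^ 2 = (1 - r) ^ 2 + 4 * r * Real.sin (Real.pi * t) ^ 2 := by
      have e : 1 - zz r t = ((1 - r * Real.cos (2 * Real.pi * t) : ℝ) : ℂ) +
          ((-(r * Real.sin (2 * Real.pi * t)) : ℝ) : ℂ) * Complex.I := by
        unfold zz
        rw [Complex.exp_mul_I, ← Complex.ofReal_cos, ← Complex.ofReal_sin]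
        push_cast
        ring
      rw [e, ← Complex.normSq_eq_norm_sq, Complex.normSq_add_mul_I]
      have h2 : Real.cos (2 * Real.pi * t) = 1 - 2 * Real.sin (Real.pi * t) ^ 2 := by
        rw [show 2 * Real.pi * t = 2 * (Real.pi * t) by ring, Real.cos_two_mul, Real.cos_sq']
        ring
      have h3 := Real.sin_sq_add_cos_sq (2 * Real.pi * t)
      have h4 : Real.sin (2 * Real.pi * t) ^ 2 = 1 - Real.cos (2 * Real.pi * t) ^ 2 := by linarith
      rw [neg_sq, mul_pow, h4, h2]
      ring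
    have h2 : 2 * |t| ≤ |Real.sin (Real.pi * t)| := by
      have h3 := Real.mul_abs_le_abs_sin (x := Real.pi * t) (by
        rw [abs_mul, abs_of_pos hpi]
        nlinarith)
      rw [abs_mul, abs_of_pos hpi] at h3
      refine le_trans (le_of_eq ?_) h3
      field_simp
    have h5 : 4 * t ^ 2 ≤ Real.sin (Real.pi * t) ^ 2 := by
      have := pow_le_pow_left₀ (by positivity) h2 2
      rw [mul_pow, sq_abs, sq_abs] at this
      linarith
    apply abs_le_of_sq_le_sq' _ (norm_nonneg _) |>.2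
    rw [h1, sq_abs]
    nlinarith [sq_nonneg (1 - r), sq_nonneg t, sq_nonneg (Real.sin (Real.pi * t))]
  · have h1 := norm_sub_norm_le (1 : ℂ) (zz r t)
    rw [norm_zz (by linarith), norm_one] at h1
    exact h1

/-- the singular integral -/
theorem sing {s η : ℝ} (hs0 : 0 < s) (hs : s ≤ 1) (hη : 0 < η) (hη1 : η < 1) :
    ∃ C : ℝ≥0∞, C ≠ ⊤ ∧ ∀ r : ℝ, 1 / 2 ≤ r → r < 1 →
      ∫⁻ t, (ENNReal.ofReal (‖1 - zz r t‖ ^ (-s))) ∂mu ≤ C * ENNReal.ofReal ((1 - r) ^ (-η)) := by
  set β : ℝ := (1 - η) * s with hβ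
  have hβ1 : β < 1 := by nlinarith
  have hβ0 : 0 < β := by
    have : 0 < 1 - η := by linarith
    positivity
  refine ⟨∫⁻ t in Set.Ioc (-(1 / 2 : ℝ)) (1 / 2), ENNReal.ofReal (|t| ^ (-β)), ?_, fun r hr hr1 => ?_⟩
  · -- finiteness
    have h1 : IntervalIntegrable (fun t : ℝ => |t| ^ (-β)) volume (-(1 / 2)) (1 / 2) := by
      have h2 : IntervalIntegrable (fun t : ℝ => |t| ^ (-β)) volume 0 (1 / 2) := by
        refine (intervalIntegral.intervalIntegrable_rpow' (by linarith : -1 < -β)).congr ?_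
        intro t ht
        rw [Set.uIoc_of_le (by norm_num)] at ht
        show t ^ (-β) = |t| ^ (-β)
        rw [abs_of_pos ht.1]
      have h3 : IntervalIntegrable (fun t : ℝ => |t| ^ (-β)) volume (-(1 / 2)) 0 := by
        have h4 := (IntervalIntegrable.iff_comp_neg).1 h2
        simp only [abs_neg, neg_zero] at h4
        exact h4.symm
      exact h3.trans h2
    rw [intervalIntegrable_iff_integrableOn_Ioc_of_le (by norm_num)] at h1
    exact h1.lintegral_lt_top.ne
  · have h1r : 0 < 1 - r := by linarith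
    rw [← lintegral_mul_const' _ _ ENNReal.ofReal_ne_top]
    unfold mu
    have hne : ∀ᵐ t : ℝ ∂(volume.restrict (Set.Ioc (-(1 / 2 : ℝ)) (1 / 2))), t ≠ 0 :=
      ae_restrict_of_ae (by rw [ae_iff]; simp)
    refine lintegral_mono_ae ?_
    filter_upwards [hne, ae_restrict_mem measurableSet_Ioc] with t ht0 ht
    rw [← ENNReal.ofReal_mul (by positivity)]
    apply ENNReal.ofReal_le_ofReal
    obtain ⟨d1, d2⟩ := dist_one hr hr1.le (t := t) (abs_le.2 ⟨by linarith [ht.1], ht.2⟩)
    set d := ‖1 - zz r t‖ with hd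
    have hd0 : 0 < d := by linarith
    · have ht0' : 0 < |t| := abs_pos.2 ht0
      have e1 : d ^ (-s) = d ^ (-β) * d ^ (-(η * s)) := by
        rw [← Real.rpow_add hd0]
        congr 1
        rw [hβ]; ring
      rw [e1]
      have h3 : d ^ (-β) ≤ |t| ^ (-β) := by
        rw [Real.rpow_neg hd0.le, Real.rpow_neg ht0'.le]
        apply inv_anti₀ (by positivity)
        exact Real.rpow_le_rpow ht0'.le d1 hβ0.le
      have h4 : d ^ (-(η * s)) ≤ (1 - r) ^ (-η) := by
        have hηs : 0 < η * s := by positivity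
        calc d ^ (-(η * s)) ≤ (1 - r) ^ (-(η * s)) := by
              rw [Real.rpow_neg hd0.le, Real.rpow_neg h1r.le]
              apply inv_anti₀ (by positivity)
              exact Real.rpow_le_rpow h1r.le d2 hηs.le
          _ ≤ (1 - r) ^ (-η) := by
              apply Real.rpow_le_rpow_of_exponent_ge h1r (by linarith)
              nlinarith
      exact mul_le_mul h3 h4 (by positivity) (by positivity)

end Pool.Agent.NH11.RM
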