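import Pool.Agent.NH11.RM.Mono

set_option autoImplicit false

/-! # The growth exponents -/

namespace Pool.Agent.NH11.RM

open Finset Filter Topology MeasureTheory
open scoped ENNReal

lemma sq_AM (A : Set ℕ) (M : ℕ) (r : ℝ) : sq (AM A M) r = fM A M (r ^ 2) := by
  unfold sq fM
  refine Finset.sum_congr rfl fun a _ => ?_
  rw [← pow_mul]

lemma fM_nonneg (A : Set ℕ) (M : ℕ) {r : ℝ} (hr : 0 ≤ r) : 0 ≤ fM A M r :=
  Finset.sum_nonneg fun _ _ => by positivity

lemma fM_mono (A : Set ℕ) {M M' : ℕ} (h : M ≤ M') {r : ℝ} (hr : 0 ≤ r) : fM A M r ≤ fM A M' r := by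
  unfold fM
  apply Finset.sum_le_sum_of_subset_of_nonneg
  · intro a ha
    rw [mem_AM] at ha ⊢
    exact ⟨ha.1.trans h, ha.2⟩
  · intro a _ _
    positivity

/-- absorbing the smaller power -/
lemma absorb {k : ℕ} (hk : 1 ≤ k) {C x B : ℝ} (hC : 1 ≤ C) (hx : 1 ≤ x) (hB : 1 ≤ B)
    (h : x ≤ C * (B + x ^ (((k : ℝ) - 1) / k))) : x ≤ (2 * C) ^ k * (2 * B) := by
  have hk0 : (0 : ℝ) < k := by exact_mod_cast hk
  have hC2 : 1 ≤ (2 * C) ^ k := one_le_pow₀ (by linarith)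
  rcases le_total (x ^ ((1 : ℝ) / k)) (2 * C) with h1 | h1
  · have h2 : x = (x ^ ((1 : ℝ) / k)) ^ k := by
      rw [← Real.rpow_natCast, ← Real.rpow_mul (by linarith)]
      rw [one_div_mul_cancel hk0.ne', Real.rpow_one]
    rw [h2]
    have h3 : (x ^ ((1 : ℝ) / k)) ^ k ≤ (2 * C) ^ k := pow_le_pow_left₀ (by positivity) h1 k
    nlinarith
  · have h2 : x = x ^ (((k : ℝ) - 1) / k) * x ^ ((1 : ℝ) / k) := by
      rw [← Real.rpow_add (by linarith)]
      have : ((k : ℝ) - 1) / k + 1 / k = 1 := by field_simp; ring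
      rw [this, Real.rpow_one]
    have h3 : 0 < x ^ (((k : ℝ) - 1) / k) := Real.rpow_pos_of_pos (by linarith) _
    have h4 : x ^ (((k : ℝ) - 1) / k) * (2 * C) ≤ x := by
      conv_rhs => rw [h2]
      gcongr
    have h5 : x ≤ 2 * (C * B) := by nlinarith
    have h6 : C ≤ (2 * C) ^ k := by
      calc C ≤ 2 * C := by linarith
        _ = (2 * C) ^ 1 := (pow_one _).symm
        _ ≤ _ := pow_le_pow_right₀ (by linarith) hk
    calc x ≤ C * (2 * B) := by linarith
      _ ≤ _ := by gcongr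

/-- the analytic inequality -/
theorem ineq (A : Set ℕ) (k : ℕ) (hk : 2 ≤ k) (i : ℕ) (hi : i ∈ ({1, 2, 3} : Finset ℕ)) {n₀ : ℕ}
    (hmono : ∀ n, n₀ ≤ n → RA A i k n ≤ RA A i k (n + 1)) {η : ℝ} (hη : 0 < η) (hη1 : η < 1) :
    ∃ C K : ℝ, 0 < C ∧ 1 ≤ K ∧ ∀ r : ℝ, 1 / 2 ≤ r → r < 1 → ∀ᶠ M : ℕ in atTop,
      fM A M (r ^ 2) ≤ C * (1 - r) ^ (-η) * (K + (1 - r) * fM A M r ^ k) ^ ((2 : ℝ) / k) := by
  have hk0 : (2 : ℝ) ≤ k := by exact_mod_cast hk
  have hs0 : (0 : ℝ) < 2 / k := by positivity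
  have hs1 : (2 : ℝ) / k ≤ 1 := (div_le_one (by linarith)).2 hk0
  obtain ⟨C1, hC1, h1⟩ := red k hk i hi
  obtain ⟨C2, hC2, h2⟩ := sing hs0 hs1 hη hη1
  obtain ⟨K, hK, h3⟩ := final_circle A i k (by omega) hmono
  -- real constants
  set c1 : ℝ := C1.toReal + 1 with hc1
  set c2 : ℝ := C2.toReal + 1 with hc2
  have hc10 : 1 ≤ c1 := by have := ENNReal.toReal_nonneg (a := C1); linarith
  have hc20 : 1 ≤ c2 := by have := ENNReal.toReal_nonneg (a := C2); linarith
  have hC1' : C1 ≤ ENNReal.ofReal c1 := by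
    rw [← ENNReal.ofReal_toReal hC1]
    exact ENNReal.ofReal_le_ofReal (by linarith)
  have hC2' : C2 ≤ ENNReal.ofReal c2 := by
    rw [← ENNReal.ofReal_toReal hC2]
    exact ENNReal.ofReal_le_ofReal (by linarith)
  refine ⟨(2 * (2 * c1)) ^ k * (2 * c2), K, by positivity, hK, fun r hr hr1 => ?_⟩
  filter_upwards [h3 r (by linarith) hr1] with M hM
  have h1r : 0 < 1 - r := by linarith
  set B : ℝ := K + (1 - r) * fM A M r ^ k with hB
  have hf0 := fM_nonneg A M (by linarith : 0 ≤ r)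
  have hB1 : 1 ≤ B := by
    have : 0 ≤ (1 - r) * fM A M r ^ k := by positivity
    linarith
  set W : ℝ := c2 * ((1 - r) ^ (-η) * B ^ ((2 : ℝ) / k)) with hW
  have hr1η : 1 ≤ (1 - r) ^ (-η) :=
    Real.one_le_rpow_of_pos_of_le_one_of_nonpos h1r (by linarith) (by linarith)
  have hBs : 1 ≤ B ^ ((2 : ℝ) / k) := Real.one_le_rpow hB1 hs0.le
  have hW1 : 1 ≤ W := by
    rw [hW]
    have : 1 ≤ (1 - r) ^ (-η) * B ^ ((2 : ℝ) / k) := one_le_mul_of_one_le_of_one_le hr1η hBs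
    exact one_le_mul_of_one_le_of_one_le hc20 this
  -- the integral
  have hII : II mu k (fun t => TS i k (AM A M) (zz r t)) ≤ ENNReal.ofReal W := by
    have e1 : II mu k (fun t => TS i k (AM A M) (zz r t)) ≤
        ∫⁻ t, ENNReal.ofReal (B ^ ((2 : ℝ) / k)) * ENNReal.ofReal (‖1 - zz r t‖ ^ (-((2 : ℝ) / k))) ∂mu := by
      unfold II
      refine lintegral_mono fun t => ?_
      have g1 := hM (zz r t) (norm_zz (by linarith) t)
      have g2 : 0 < ‖1 - zz r t‖ := by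
        have := norm_sub_norm_le (1 : ℂ) (zz r t)
        rw [norm_zz (by linarith), norm_one] at this
        linarith
      have g3 : ‖TS i k (AM A M) (zz r t)‖ ≤ B / ‖1 - zz r t‖ := by
        rw [le_div_iff₀ g2, mul_comm]
        exact g1
      rw [← ENNReal.ofReal_mul (by positivity), ← ofReal_norm_eq_enorm,
        ENNReal.ofReal_rpow_of_nonneg (norm_nonneg _) hs0.le]
      apply ENNReal.ofReal_le_ofReal
      calc ‖TS i k (AM A M) (zz r t)‖ ^ ((2 : ℝ) / k) ≤ (B / ‖1 - zz r t‖) ^ ((2 : ℝ) / k) :=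
            Real.rpow_le_rpow (norm_nonneg _) g3 hs0.le
        _ = _ := by
            rw [Real.div_rpow (by linarith) g2.le, Real.rpow_neg g2.le, div_eq_mul_inv]
    refine e1.trans ?_
    rw [lintegral_const_mul' _ _ ENNReal.ofReal_ne_top]
    calc ENNReal.ofReal (B ^ ((2 : ℝ) / k)) * ∫⁻ t, ENNReal.ofReal (‖1 - zz r t‖ ^ (-((2 : ℝ) / k))) ∂mu ≤
        ENNReal.ofReal (B ^ ((2 : ℝ) / k)) * (C2 * ENNReal.ofReal ((1 - r) ^ (-η))) := by
          gcongr
          exact h2 r hr hr1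
      _ ≤ ENNReal.ofReal (B ^ ((2 : ℝ) / k)) * (ENNReal.ofReal c2 * ENNReal.ofReal ((1 - r) ^ (-η))) := by
          gcongr
      _ = ENNReal.ofReal W := by
          rw [← ENNReal.ofReal_mul (by positivity), ← ENNReal.ofReal_mul (by positivity), hW]
          congr 1
          ring
  -- the comparison
  have h4 := h1 (AM A M) r (by linarith) hr1.le
  rw [sq_AM] at h4
  set s := fM A M (r ^ 2) with hs
  have hs0' : 0 ≤ s := fM_nonneg A M (by positivity)
  have hkk : 0 ≤ ((k : ℝ) - 1) / k := div_nonneg (by linarith) (by linarith)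
  have h5 : s ≤ c1 * (W + (max 1 s) ^ (((k : ℝ) - 1) / k)) := by
    have e : (max 1 (ENNReal.ofReal s)) ^ (((k : ℝ) - 1) / k) =
        ENNReal.ofReal ((max 1 s) ^ (((k : ℝ) - 1) / k)) := by
      rw [← ENNReal.ofReal_one, ← ENNReal.ofReal_max, ENNReal.ofReal_rpow_of_nonneg _ hkk]
      exact le_trans zero_le_one (le_max_left _ _)
    rw [e] at h4
    have h6 : ENNReal.ofReal s ≤ ENNReal.ofReal (c1 * (W + (max 1 s) ^ (((k : ℝ) - 1) / k))) := by
      refine h4.trans ?_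
      rw [ENNReal.ofReal_mul (p := c1) (by linarith), ENNReal.ofReal_add (p := W)
        (q := (max 1 s) ^ (((k : ℝ) - 1) / k)) (by linarith) (by positivity)]
      gcongr
    exact (ENNReal.ofReal_le_ofReal_iff (by positivity)).1 h6
  set x := max 1 s with hx
  have hx1 : 1 ≤ x := le_max_left _ _
  have h7 : x ≤ (2 * c1) * (W + x ^ (((k : ℝ) - 1) / k)) := by
    have hp : 0 ≤ x ^ (((k : ℝ) - 1) / k) := by positivity
    rw [hx]
    apply max_le
    · rw [← hx]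
      nlinarith
    · rw [← hx]
      refine h5.trans ?_
      apply mul_le_mul_of_nonneg_right (by linarith)
      linarith
  have h8 := absorb (by omega) (by linarith : 1 ≤ 2 * c1) hx1 hW1 h7
  calc s ≤ x := le_max_right _ _
    _ ≤ _ := h8
    _ = _ := by rw [hW]; ring

end Pool.Agent.NH11.RM
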