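import Mathlib

set_option autoImplicit false

/-! # Quasi-norm estimates for sequences given by Newton's identities -/

namespace Pool.Agent.NH11.RM

open MeasureTheory Finset
open scoped ENNReal

variable {μ : Measure ℝ} [IsProbabilityMeasure μ]

/-- the integral of `|g| ^ (2/m)` -/
noncomputable def II (μ : Measure ℝ) (m : ℕ) (g : ℝ → ℂ) : ℝ≥0∞ := ∫⁻ t, ‖g t‖ₑ ^ ((2 : ℝ) / m) ∂μ

omit [IsProbabilityMeasure μ] in
lemma holder {m n : ℕ} (hm : 1 ≤ m) (hn : 1 ≤ n) {g h : ℝ → ℂ} (hg : Measurable g)
    (hh : Measurable h) :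
    II μ (m + n) (fun t => g t * h t) ≤
      II μ m g ^ ((m : ℝ) / (m + n)) * II μ n h ^ ((n : ℝ) / (m + n)) := by
  have hm0 : (0 : ℝ) < m := by exact_mod_cast hm
  have hn0 : (0 : ℝ) < n := by exact_mod_cast hn
  have h1 := ENNReal.lintegral_Lp_mul_le_Lq_mul_Lr (p := 2 / ((m : ℝ) + n)) (q := 2 / (m : ℝ))
    (r := 2 / (n : ℝ)) (by positivity)
    (div_lt_div_of_pos_left (by norm_num) hm0 (by linarith)) (by field_simp) μ
    (f := fun t => ‖g t‖ₑ) (g := fun t => ‖h t‖ₑ) hg.enorm.aemeasurable hh.enorm.aemeasurable
  have h2 := ENNReal.rpow_le_rpow h1 (by positivity : (0 : ℝ) ≤ 2 / ((m : ℝ) + n))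
  rw [← ENNReal.rpow_mul, one_div_mul_cancel (by positivity), ENNReal.rpow_one,
    ENNReal.mul_rpow_of_nonneg _ _ (by positivity), ← ENNReal.rpow_mul, ← ENNReal.rpow_mul] at h2
  unfold II
  have e1 : 1 / (2 / (m : ℝ)) * (2 / ((m : ℝ) + n)) = (m : ℝ) / (m + n) := by field_simp
  have e2 : 1 / (2 / (n : ℝ)) * (2 / ((m : ℝ) + n)) = (n : ℝ) / (m + n) := by field_simp
  rw [e1, e2] at h2
  refine le_trans (le_of_eq ?_) h2
  refine lintegral_congr fun t => ?_
  rw [Pi.mul_apply, enorm_mul]
  push_cast
  rfl

omit [IsProbabilityMeasure μ] in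
lemma II_add {m : ℕ} (hm : 2 ≤ m) {g h : ℝ → ℂ} (hg : Measurable g) :
    II μ m (fun t => g t + h t) ≤ II μ m g + II μ m h := by
  have hm0 : (2 : ℝ) ≤ m := by exact_mod_cast hm
  unfold II
  rw [← lintegral_add_left (by fun_prop)]
  refine lintegral_mono fun t => ?_
  refine (ENNReal.rpow_le_rpow (enorm_add_le _ _) (by positivity)).trans ?_
  exact ENNReal.rpow_add_le_add_rpow _ _ (by positivity) ((div_le_one (by linarith)).2 hm0)

omit [IsProbabilityMeasure μ] in
lemma II_sum {ι : Type*} {m : ℕ} (hm : 2 ≤ m) (s : Finset ι) (g : ι → ℝ → ℂ)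
    (hg : ∀ i, Measurable (g i)) :
    II μ m (fun t => ∑ i ∈ s, g i t) ≤ ∑ i ∈ s, II μ m (g i) := by
  classical
  induction s using Finset.induction_on with
  | empty =>
    have hm0 : (2 : ℝ) ≤ m := by exact_mod_cast hm
    have : (0 : ℝ) < 2 / m := by positivity
    simp [II, this]
  | insert a s ha ih =>
    simp_rw [Finset.sum_insert ha]
    exact (II_add hm (hg a)).trans (by gcongr)

lemma II_one (m : ℕ) : II μ m (fun _ => 1) = 1 := by
  unfold II
  simp

lemma jensen {n : ℕ} (hn : 1 ≤ n) {p : ℝ → ℂ} (hp : Measurable p) :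
    II μ n p ≤ II μ 1 p ^ ((1 : ℝ) / n) := by
  obtain ⟨k, rfl⟩ : ∃ k, n = k + 1 := ⟨n - 1, by omega⟩
  rcases Nat.eq_zero_or_pos k with rfl | hk
  · simp
  · have h := holder (μ := μ) (m := 1) (n := k) le_rfl hk hp (measurable_const (a := (1 : ℂ)))
    rw [II_one, ENNReal.one_rpow, mul_one] at h
    have e : (((1 : ℕ) : ℝ)) / (((1 : ℕ) : ℝ) + k) = 1 / ((k + 1 : ℕ) : ℝ) := by
      push_cast; ring
    rw [e] at h
    refine le_trans (le_of_eq ?_) h
    rw [add_comm k 1]
    simp

omit [IsProbabilityMeasure μ] in
lemma II_mono {m : ℕ} {g h : ℝ → ℂ} (hgh : ∀ t, ‖g t‖ ≤ ‖h t‖) : II μ m g ≤ II μ m h := by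
  unfold II
  refine lintegral_mono fun t => ?_
  apply ENNReal.rpow_le_rpow _ (by positivity)
  rw [enorm_le_iff_norm_le]
  exact hgh t

omit [IsProbabilityMeasure μ] in
lemma II_pow {m : ℕ} (hm : 1 ≤ m) (f : ℝ → ℂ) : II μ m (fun t => f t ^ m) = II μ 1 f := by
  unfold II
  refine lintegral_congr fun t => ?_
  have hm0 : (0 : ℝ) < m := by exact_mod_cast hm
  rw [enorm_pow, ← ENNReal.rpow_natCast, ← ENNReal.rpow_mul]
  congr 1
  push_cast
  field_simp

/-- the data -/
structure Data (μ : Measure ℝ) (u q : ℕ → ℝ → ℂ) (S : ℝ≥0∞) : Prop where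
  mu : ∀ k, Measurable (u k)
  mq : ∀ k, Measurable (q k)
  S1 : 1 ≤ S
  hS : ∀ j, II μ 1 (q j) ≤ S
  u0 : ∀ t, u 0 t = 1
  rc : ∀ (k : ℕ) (t : ℝ), ((k : ℂ) + 1) * u (k + 1) t = ∑ p ∈ antidiagonal k, u p.1 t * q p.2 t

lemma pow_le_pow_S {S : ℝ≥0∞} (hS : 1 ≤ S) {x y : ℝ} (h : x ≤ y) : S ^ x ≤ S ^ y :=
  ENNReal.rpow_le_rpow_of_exponent_le hS h

lemma rpow_le_self {C : ℝ≥0∞} (hC : 1 ≤ C) {x : ℝ} (h : x ≤ 1) : C ^ x ≤ C := by
  calc C ^ x ≤ C ^ (1 : ℝ) := ENNReal.rpow_le_rpow_of_exponent_le hC h
    _ = C := ENNReal.rpow_one C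

/-- the main estimate -/
theorem bound (k : ℕ) : ∃ C : ℝ≥0∞, C ≠ ⊤ ∧ 1 ≤ C ∧ ∀ (μ : Measure ℝ) [IsProbabilityMeasure μ]
    (u q : ℕ → ℝ → ℂ) (S : ℝ≥0∞), Data μ u q S → ∀ i, 1 ≤ i → i ≤ k →
    II μ i (u i) ≤ C * S ∧
    II μ i (fun t => u i t - q 0 t ^ i / (i.factorial : ℂ)) ≤ C * S ^ (((i : ℝ) - 1) / i) := by
  induction k with
  | zero => exact ⟨1, by simp, le_rfl, fun _ _ _ _ _ _ i h1 h2 => by omega⟩
  | succ k ih =>
    obtain ⟨C, hC, hC1, ih⟩ := ih
    refine ⟨C + 1 + C * (k + 1), by finiteness, ?_, fun μ _ u q S hD i h1 h2 => ?_⟩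
    · exact le_add_right (le_add_left le_rfl)
    have hCC : C ≤ C + 1 + C * (k + 1) := le_add_right (le_add_right le_rfl)
    rcases Nat.lt_or_ge i (k + 1) with h3 | h3
    · obtain ⟨g1, g2⟩ := ih μ u q S hD i h1 (by omega)
      exact ⟨g1.trans (by gcongr), g2.trans (by gcongr)⟩
    · have hi : i = k + 1 := by omega
      subst hi
      rcases Nat.eq_zero_or_pos k with rfl | hk
      · -- index one
        have h4 : ∀ t, u 1 t = q 0 t := by
          intro t
          have := hD.rc 0 t
          simp [hD.u0] at this
          exact this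
        constructor
        · have : u (0 + 1) = q 0 := by funext t; exact h4 t
          rw [this]
          refine (hD.hS 0).trans ?_
          calc S = 1 * S := (one_mul S).symm
            _ ≤ _ := by gcongr; exact le_add_right (le_add_left le_rfl)
        · have : (fun t => u (0 + 1) t - q 0 t ^ (0 + 1) / ((0 + 1).factorial : ℂ)) = fun _ => 0 := by
            funext t
            simp [h4]
          rw [this]
          simp [II]
      · obtain ⟨l, rfl⟩ : ∃ l, k = l + 1 := ⟨k - 1, by omega⟩
        have hS1 := hD.S1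
        -- the difference
        have hdiff : II μ (l + 1 + 1) (fun t => u (l + 1 + 1) t - q 0 t ^ (l + 1 + 1) /
            ((l + 1 + 1).factorial : ℂ)) ≤ (C + C * (l + 1)) * S ^ (((l : ℝ) + 1) / (l + 2)) := by
          set D : ℝ → ℂ := fun t => u (l + 1) t - q 0 t ^ (l + 1) / ((l + 1).factorial : ℂ) with hDef
          have mD : Measurable D := by
            have := hD.mu (l + 1)
            have := hD.mq 0
            fun_prop
          have e1 : ∀ t, ‖u (l + 1 + 1) t - q 0 t ^ (l + 1 + 1) / ((l + 1 + 1).factorial : ℂ)‖ ≤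
              ‖D t * q 0 t + ∑ p ∈ antidiagonal l, u p.1 t * q (p.2 + 1) t‖ := by
            intro t
            have h5 := hD.rc (l + 1) t
            rw [Finset.Nat.sum_antidiagonal_succ'] at h5
            have hf : ((l + 1 + 1).factorial : ℂ) = ((l : ℂ) + 1 + 1) * ((l + 1).factorial : ℂ) := by
              rw [Nat.factorial_succ]; push_cast; ring
            have hf0 : ((l + 1).factorial : ℂ) ≠ 0 := by
              exact_mod_cast (Nat.factorial_pos _).ne'
            have hl0 : ((l : ℂ) + 1 + 1) ≠ 0 := by
              have : ((l + 1 + 1 : ℕ) : ℂ) ≠ 0 := Nat.cast_ne_zero.2 (Nat.succ_ne_zero (l + 1))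
              push_cast at this
              exact this
            have h6 : D t * q 0 t + ∑ p ∈ antidiagonal l, u p.1 t * q (p.2 + 1) t =
                ((l : ℂ) + 1 + 1) * (u (l + 1 + 1) t -
                  q 0 t ^ (l + 1 + 1) / ((l + 1 + 1).factorial : ℂ)) := by
              rw [mul_sub]
              push_cast at h5
              rw [h5, hf, hDef]
              simp only
              field_simp
              ring
            rw [h6, norm_mul]
            have h7 : 1 ≤ ‖((l : ℂ) + 1 + 1)‖ := by
              have : ((l : ℂ) + 1 + 1) = ((l + 1 + 1 : ℕ) : ℂ) := by push_cast; ring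
              rw [this, Complex.norm_natCast]
              push_cast
              have : (0 : ℝ) ≤ l := Nat.cast_nonneg _
              linarith
            exact le_mul_of_one_le_left (norm_nonneg _) h7
          refine (II_mono e1).trans ?_
          refine (II_add (by omega) (mD.mul (hD.mq 0))).trans ?_
          have hl2 : (0 : ℝ) < (l : ℝ) + 2 := by positivity
          have t1 : II μ (l + 1 + 1) (fun t => D t * q 0 t) ≤ C * S ^ (((l : ℝ) + 1) / (l + 2)) := by
            refine (holder (m := l + 1) (n := 1) (by omega) le_rfl mD (hD.mq 0)).trans ?_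
            have g2 := (ih μ u q S hD (l + 1) (by omega) le_rfl).2
            have a1 : ((l + 1 : ℕ) : ℝ) / (((l + 1 : ℕ) : ℝ) + ((1 : ℕ) : ℝ)) =
                ((l : ℝ) + 1) / (l + 2) := by push_cast; ring
            have a2 : ((1 : ℕ) : ℝ) / (((l + 1 : ℕ) : ℝ) + ((1 : ℕ) : ℝ)) = 1 / ((l : ℝ) + 2) := by
              push_cast; ring
            rw [a1, a2]
            calc II μ (l + 1) D ^ (((l : ℝ) + 1) / (l + 2)) * II μ 1 (q 0) ^ (1 / ((l : ℝ) + 2)) ≤
                (C * S ^ ((((l + 1 : ℕ) : ℝ) - 1) / ((l + 1 : ℕ) : ℝ))) ^ (((l : ℝ) + 1) / (l + 2)) *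
                  S ^ (1 / ((l : ℝ) + 2)) := by
                  gcongr
                  exact hD.hS 0
              _ = C ^ (((l : ℝ) + 1) / (l + 2)) * (S ^ ((l : ℝ) / (l + 2)) * S ^ (1 / ((l : ℝ) + 2))) := by
                  rw [ENNReal.mul_rpow_of_nonneg _ _ (by positivity), ← ENNReal.rpow_mul, mul_assoc]
                  congr 3
                  push_cast
                  field_simp
                  ring
              _ = C ^ (((l : ℝ) + 1) / (l + 2)) * S ^ (((l : ℝ) + 1) / (l + 2)) := by
                  rw [← ENNReal.rpow_add_of_nonneg _ _ (by positivity) (by positivity)]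
                  congr 2
                  ring
              _ ≤ _ := by
                  gcongr
                  apply rpow_le_self hC1
                  rw [div_le_one hl2]
                  linarith
          have t2 : II μ (l + 1 + 1) (fun t => ∑ p ∈ antidiagonal l, u p.1 t * q (p.2 + 1) t) ≤
              C * (l + 1) * S ^ (((l : ℝ) + 1) / (l + 2)) := by
            refine (II_sum (by omega) _ (fun (p : ℕ × ℕ) t => u p.1 t * q (p.2 + 1) t)
              (fun p => (hD.mu _).mul (hD.mq _))).trans ?_
            have hterm : ∀ p ∈ antidiagonal l, II μ (l + 1 + 1) (fun t => u p.1 t * q (p.2 + 1) t) ≤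
                C * S ^ (((l : ℝ) + 1) / (l + 2)) := by
              intro p hp
              rw [Finset.HasAntidiagonal.mem_antidiagonal] at hp
              obtain ⟨i, j⟩ := p
              simp only at hp ⊢
              rcases Nat.eq_zero_or_pos i with rfl | hi
              · have hj : j = l := by omega
                subst hj
                have : (fun t => u 0 t * q (j + 1) t) = q (j + 1) := by
                  funext t; rw [hD.u0, one_mul]
                rw [this]
                refine (jensen (by omega) (hD.mq _)).trans ?_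
                calc II μ 1 (q (j + 1)) ^ ((1 : ℝ) / ((j + 1 + 1 : ℕ) : ℝ)) ≤
                    S ^ ((1 : ℝ) / ((j + 1 + 1 : ℕ) : ℝ)) := by
                      gcongr
                      exact hD.hS _
                  _ ≤ S ^ (((j : ℝ) + 1) / (j + 2)) := by
                      apply pow_le_pow_S hS1
                      push_cast
                      rw [show (j : ℝ) + 1 + 1 = j + 2 by ring]
                      gcongr
                      have : (0 : ℝ) ≤ j := Nat.cast_nonneg _
                      linarith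
                  _ = 1 * S ^ (((j : ℝ) + 1) / (j + 2)) := (one_mul _).symm
                  _ ≤ _ := by gcongr
              · have hij : l + 1 + 1 = i + (j + 2) := by omega
                have hij' : (l : ℝ) + 2 = (i : ℝ) + (j + 2) := by
                  have : ((l + 1 + 1 : ℕ) : ℝ) = ((i + (j + 2) : ℕ) : ℝ) := by rw [hij]
                  push_cast at this
                  linarith
                rw [hij]
                refine (holder (m := i) (n := j + 2) hi (by omega) (hD.mu _) (hD.mq _)).trans ?_
                have g1 := (ih μ u q S hD i hi (by omega)).1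
                have a1 : (i : ℝ) / ((i : ℝ) + ((j + 2 : ℕ) : ℝ)) = (i : ℝ) / ((l : ℝ) + 2) := by
                  rw [hij']; push_cast; rfl
                have a2 : ((j + 2 : ℕ) : ℝ) / ((i : ℝ) + ((j + 2 : ℕ) : ℝ)) =
                    ((j : ℝ) + 2) / ((l : ℝ) + 2) := by
                  rw [hij']; push_cast; rfl
                rw [a1, a2]
                have hj2 : (0 : ℝ) < (j : ℝ) + 2 := by positivity
                calc II μ i (u i) ^ ((i : ℝ) / ((l : ℝ) + 2)) *
                    II μ (j + 2) (q (j + 1)) ^ (((j : ℝ) + 2) / ((l : ℝ) + 2)) ≤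
                    (C * S) ^ ((i : ℝ) / ((l : ℝ) + 2)) *
                    (S ^ ((1 : ℝ) / ((j + 2 : ℕ) : ℝ))) ^ (((j : ℝ) + 2) / ((l : ℝ) + 2)) := by
                      gcongr
                      refine (jensen (by omega) (hD.mq _)).trans ?_
                      gcongr
                      exact hD.hS _
                  _ = C ^ ((i : ℝ) / ((l : ℝ) + 2)) * (S ^ ((i : ℝ) / ((l : ℝ) + 2)) *
                      S ^ (1 / ((l : ℝ) + 2))) := by
                      rw [ENNReal.mul_rpow_of_nonneg _ _ (by positivity), ← ENNReal.rpow_mul,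
                        mul_assoc]
                      congr 3
                      push_cast
                      field_simp
                  _ = C ^ ((i : ℝ) / ((l : ℝ) + 2)) * S ^ (((i : ℝ) + 1) / ((l : ℝ) + 2)) := by
                      rw [← ENNReal.rpow_add_of_nonneg _ _ (by positivity) (by positivity)]
                      congr 2
                      ring
                  _ ≤ _ := by
                      have hil : (i : ℝ) ≤ l := by exact_mod_cast (by omega : i ≤ l)
                      gcongr
                      · apply rpow_le_self hC1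
                        rw [div_le_one hl2]
                        linarith
            calc ∑ p ∈ antidiagonal l, II μ (l + 1 + 1) (fun t => u p.1 t * q (p.2 + 1) t) ≤
                ∑ p ∈ antidiagonal l, C * S ^ (((l : ℝ) + 1) / (l + 2)) := Finset.sum_le_sum hterm
              _ = _ := by
                rw [Finset.sum_const, Finset.Nat.card_antidiagonal, nsmul_eq_mul]
                push_cast
                ring
          calc _ ≤ C * S ^ (((l : ℝ) + 1) / (l + 2)) +
                C * (l + 1) * S ^ (((l : ℝ) + 1) / (l + 2)) := add_le_add t1 t2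
            _ = _ := by ring
        have hexp : ((((l + 1 + 1 : ℕ) : ℝ)) - 1) / ((l + 1 + 1 : ℕ) : ℝ) = ((l : ℝ) + 1) / (l + 2) := by
          push_cast
          congr 1 <;> ring
        have hCl : C + C * (l + 1) ≤ C + 1 + C * (((l + 1 : ℕ) : ℝ≥0∞) + 1) := by
          push_cast
          gcongr
          · exact le_add_right le_rfl
          · exact le_add_right le_rfl
        have hfin : C + C * (l + 1) + 1 ≤ C + 1 + C * (((l + 1 : ℕ) : ℝ≥0∞) + 1) := by
          push_cast
          calc C + C * (l + 1) + 1 = C + 1 + C * (l + 1) := by ring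
            _ ≤ C + 1 + C * (l + 1 + 1) := by
              gcongr
              exact le_add_right le_rfl
        refine ⟨?_, ?_⟩
        · have h8 : II μ (l + 1 + 1) (u (l + 1 + 1)) ≤
              II μ (l + 1 + 1) (fun t => u (l + 1 + 1) t - q 0 t ^ (l + 1 + 1) /
                ((l + 1 + 1).factorial : ℂ)) + II μ (l + 1 + 1) (fun t => q 0 t ^ (l + 1 + 1) /
                ((l + 1 + 1).factorial : ℂ)) := by
            refine le_trans (le_of_eq ?_) (II_add (by omega) (by
              have := hD.mu (l + 1 + 1)
              have := hD.mq 0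
              fun_prop))
            congr 1
            funext t
            ring
          have h9 : II μ (l + 1 + 1) (fun t => q 0 t ^ (l + 1 + 1) /
                ((l + 1 + 1).factorial : ℂ)) ≤ S := by
            refine (II_mono (h := fun t => q 0 t ^ (l + 1 + 1)) fun t => ?_).trans ?_
            · rw [norm_div, Complex.norm_natCast]
              apply div_le_self (norm_nonneg _)
              exact_mod_cast Nat.factorial_pos _
            · rw [II_pow (by omega)]
              exact hD.hS 0
          refine h8.trans ((add_le_add hdiff h9).trans ?_)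
          calc (C + C * (l + 1)) * S ^ (((l : ℝ) + 1) / (l + 2)) + S ≤
              (C + C * (l + 1)) * S + 1 * S := by
                rw [one_mul]
                gcongr
                apply rpow_le_self hS1
                rw [div_le_one (by positivity)]
                linarith
            _ = (C + C * (l + 1) + 1) * S := by ring
            _ ≤ _ := mul_le_mul' hfin le_rfl
        · rw [hexp]
          refine hdiff.trans ?_
          gcongr

end Pool.Agent.NH11.RM
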