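import Pool.Agent.NH11.RM.Expo

set_option autoImplicit false

/-! # Sets with an eventually monotone representation function are not too sparse -/

namespace Pool.Agent.NH11.RM

open Finset Filter Topology

/-- the growth condition -/
def GG (A : Set ℕ) (θ : ℝ) : Prop := ∃ C : ℝ, 0 < C ∧ ∀ r : ℝ, 1 / 2 ≤ r → r < 1 → ∀ M : ℕ,
  fM A M r ≤ C * (1 - r) ^ (-θ)

/-- a non-vanishing value of the representation function -/
lemma exists_rep {A : Set ℕ} (hA : A.Infinite) {k : ℕ} (hk : 1 ≤ k) (i n₀ : ℕ) :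
    ∃ n, n₀ ≤ n ∧ 1 ≤ RA A i k n := by
  have hinf : {a | a ∈ A ∧ n₀ ≤ a}.Infinite := by
    have h := hA.diff (Set.finite_Iio n₀)
    refine h.mono ?_
    rintro a ⟨h1, h2⟩
    exact ⟨h1, not_lt.1 h2⟩
  set p : ℕ → Prop := fun a => a ∈ A ∧ n₀ ≤ a with hp
  have hm : ∀ n, p (Nat.nth p n) := fun n => Nat.nth_mem_of_infinite hinf n
  have hs : StrictMono (Nat.nth p) := Nat.nth_strictMono hinf
  set t : Fin k → ℕ := fun j => Nat.nth p j with ht
  have hts : StrictMono t := fun a b hab => hs hab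
  refine ⟨∑ j, t j, ?_, ?_⟩
  · calc n₀ ≤ t ⟨0, by omega⟩ := (hm _).2
      _ ≤ _ := Finset.single_le_sum (f := t) (fun _ _ => Nat.zero_le _) (Finset.mem_univ _)
  · unfold RA
    rw [Nat.one_le_iff_ne_zero, ← Nat.pos_iff_ne_zero,
      Set.ncard_pos ((Finset.finite_toSet _).subset (RA_fin A i k _))]
    exact ⟨t, fun j => (hm _).1, rfl, fun _ => hts.monotone, fun _ => hts⟩

/-- lower bound for the growth exponent -/
lemma lower {A : Set ℕ} (hA : A.Infinite) {k : ℕ} (hk : 1 ≤ k) {i n₀ : ℕ}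
    (hmono : ∀ n, n₀ ≤ n → RA A i k n ≤ RA A i k (n + 1)) {θ : ℝ} (hθ : GG A θ) :
    1 / (k : ℝ) ≤ θ := by
  obtain ⟨n₁, hn₁, hR⟩ := exists_rep hA hk i n₀
  have hR' : ∀ n, n₁ ≤ n → 1 ≤ RA A i k n := by
    intro n hn
    induction n, hn using Nat.le_induction with
    | base => exact hR
    | succ n hn ih => exact ih.trans (hmono n (by omega))
  obtain ⟨C, hC, h⟩ := hθ
  by_contra hcon
  push Not at hcon
  have hk0 : (0 : ℝ) < k := by exact_mod_cast hk
  have hkθ : (k : ℝ) * θ < 1 := by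
    rw [lt_div_iff₀ hk0] at hcon
    linarith
  -- the lower bound for the sums
  have hlow : ∀ r : ℝ, 1 / 2 ≤ r → r < 1 → (1 / 2) ^ (n₁ + 1) / (1 - r) ≤ (C * (1 - r) ^ (-θ)) ^ k := by
    intro r hr hr1
    have hr0 : 0 < r := by linarith
    have h1r : 0 < 1 - r := by linarith
    have h1 : ∀ᶠ M : ℕ in atTop, r ^ M ≤ 1 / 2 :=
      (tendsto_pow_atTop_nhds_zero_of_lt_one hr0.le hr1).eventually (ge_mem_nhds (by norm_num))
    obtain ⟨M, hM⟩ := h1.exists
    have h2 : ∑ m ∈ range M, r ^ (n₁ + m) ≤ PR A (n₁ + M) i k r := by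
      unfold PR
      rw [Finset.sum_range_succ, Finset.sum_range_add]
      have e1 : 0 ≤ ∑ x ∈ range n₁, (RA A i k x : ℝ) * r ^ x :=
        Finset.sum_nonneg fun _ _ => by positivity
      have e2 : 0 ≤ (RA A i k (n₁ + M) : ℝ) * r ^ (n₁ + M) := by positivity
      have e3 : ∑ m ∈ range M, r ^ (n₁ + m) ≤ ∑ m ∈ range M, (RA A i k (n₁ + m) : ℝ) * r ^ (n₁ + m) := by
        refine Finset.sum_le_sum fun m _ => ?_
        have : (1 : ℝ) ≤ RA A i k (n₁ + m) := by exact_mod_cast hR' _ (by omega)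
        exact le_mul_of_one_le_left (by positivity) this
      linarith
    have h3 : ∑ m ∈ range M, r ^ (n₁ + m) = r ^ n₁ * ((1 - r ^ M) / (1 - r)) := by
      simp_rw [pow_add]
      rw [← Finset.mul_sum, geom_sum_eq hr1.ne]
      congr 1
      rw [← neg_div_neg_eq]
      congr 1 <;> ring
    have h4 : (1 / 2) ^ (n₁ + 1) / (1 - r) ≤ ∑ m ∈ range M, r ^ (n₁ + m) := by
      rw [h3, pow_succ, mul_div_assoc]
      have a1 : (1 / 2 : ℝ) ^ n₁ ≤ r ^ n₁ := pow_le_pow_left₀ (by norm_num) hr n₁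
      have a2 : (1 / 2 : ℝ) / (1 - r) ≤ (1 - r ^ M) / (1 - r) := by
        apply div_le_div_of_nonneg_right _ h1r.le
        linarith
      exact mul_le_mul a1 a2 (by positivity) (by positivity)
    have h5 := PR_le A (n₁ + M) i hk hr0.le
    have h6 := pow_le_pow_left₀ (fM_nonneg A (n₁ + M) hr0.le) (h r hr hr1 (n₁ + M)) k
    linarith
  have hx : ∀ x : ℝ, 0 < x → x ≤ 1 / 2 → (1 / 2 : ℝ) ^ (n₁ + 1) ≤ C ^ k * x ^ (1 - k * θ) := by
    intro x hx0 hx1
    have h1 := hlow (1 - x) (by linarith) (by linarith)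
    rw [sub_sub_cancel, div_le_iff₀ hx0, mul_pow, ← Real.rpow_natCast (x ^ (-θ)), ← Real.rpow_mul hx0.le,
      mul_assoc] at h1
    refine h1.trans (le_of_eq ?_)
    congr 1
    nth_rw 2 [← Real.rpow_one x]
    rw [← Real.rpow_add hx0]
    congr 1
    ring
  have ha : 0 < 1 - k * θ := by linarith
  set c : ℝ := (1 / 2) ^ (n₁ + 1) with hc
  have hc0 : 0 < c := by positivity
  have hCk : 0 < C ^ k := by positivity
  set y : ℝ := (c / (2 * C ^ k)) ^ (1 / (1 - k * θ)) with hy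
  have hy0 : 0 < y := by positivity
  have h1 := hx (min (1 / 2) y) (lt_min (by norm_num) hy0) (min_le_left _ _)
  have h2 : (min (1 / 2) y) ^ (1 - k * θ) ≤ c / (2 * C ^ k) := by
    calc (min (1 / 2) y) ^ (1 - k * θ) ≤ y ^ (1 - k * θ) :=
          Real.rpow_le_rpow (le_min (by norm_num) hy0.le) (min_le_right _ _) ha.le
      _ = c / (2 * C ^ k) := by
          rw [hy, ← Real.rpow_mul (by positivity), one_div_mul_cancel ha.ne', Real.rpow_one]
  have h3 : C ^ k * (min (1 / 2) y) ^ (1 - k * θ) ≤ c / 2 := by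
    calc C ^ k * (min (1 / 2) y) ^ (1 - k * θ) ≤ C ^ k * (c / (2 * C ^ k)) := by gcongr
      _ = c / 2 := by field_simp
  linarith

/-- the exponents improve -/
lemma improve {A : Set ℕ} (hA : A.Infinite) {k : ℕ} (hk : 2 ≤ k) {i : ℕ}
    (hi : i ∈ ({1, 2, 3} : Finset ℕ)) {n₀ : ℕ}
    (hmono : ∀ n, n₀ ≤ n → RA A i k n ≤ RA A i k (n + 1)) {η : ℝ} (hη : 0 < η) (hη1 : η < 1)
    {θ : ℝ} (hθ : GG A θ) : GG A (2 * θ - 2 / k + η) := by
  have hθk := lower hA (by omega : 1 ≤ k) hmono hθ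
  have hk0 : (2 : ℝ) ≤ k := by exact_mod_cast hk
  obtain ⟨C, K, hC, hK, h⟩ := ineq A k hk i hi hmono hη hη1
  obtain ⟨C', hC', h'⟩ := hθ
  have he : 0 ≤ 2 * θ - 2 / k + η := by
    have : 2 * (1 / (k : ℝ)) = 2 / k := by ring
    linarith
  refine ⟨C * (K + C' ^ k) ^ ((2 : ℝ) / k) * 2 ^ (2 * θ - 2 / k + η), by positivity,
    fun ρ hρ hρ1 M => ?_⟩
  set r := Real.sqrt ρ with hr
  have hρ0 : 0 ≤ ρ := by linarith
  have hr2 : r ^ 2 = ρ := Real.sq_sqrt hρ0
  have hr0 : 0 ≤ r := Real.sqrt_nonneg _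
  have hr1 : r < 1 := by
    rw [hr, Real.sqrt_lt' one_pos]
    linarith
  have hrρ : ρ ≤ r := by nlinarith
  obtain ⟨M', hM', hMM⟩ := ((h r (by linarith) hr1).and (eventually_ge_atTop M)).exists
  rw [hr2] at hM'
  have h1r : 0 < 1 - r := by linarith
  have h2 := h' r (by linarith) hr1 M'
  have hf0 := fM_nonneg A M' hr0
  have hkθ : 1 ≤ k * θ := by
    rw [div_le_iff₀ (by linarith)] at hθk
    linarith
  have h3 : K + (1 - r) * fM A M' r ^ k ≤ (K + C' ^ k) * (1 - r) ^ (1 - k * θ) := by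
    have a1 : 1 ≤ (1 - r) ^ (1 - k * θ) :=
      Real.one_le_rpow_of_pos_of_le_one_of_nonpos h1r (by linarith) (by linarith)
    have a2 : (1 - r) * fM A M' r ^ k ≤ C' ^ k * (1 - r) ^ (1 - k * θ) := by
      calc (1 - r) * fM A M' r ^ k ≤ (1 - r) * (C' * (1 - r) ^ (-θ)) ^ k := by gcongr
        _ = C' ^ k * ((1 - r) ^ (1 : ℝ) * (1 - r) ^ (-θ * k)) := by
            rw [mul_pow, ← Real.rpow_natCast ((1 - r) ^ (-θ)), ← Real.rpow_mul h1r.le, Real.rpow_one]
            ring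
        _ = _ := by
            rw [← Real.rpow_add h1r]
            congr 2
            ring
    nlinarith
  have hs0 : (0 : ℝ) < 2 / k := by positivity
  have h4 : (K + (1 - r) * fM A M' r ^ k) ^ ((2 : ℝ) / k) ≤
      (K + C' ^ k) ^ ((2 : ℝ) / k) * (1 - r) ^ (2 / k - 2 * θ) := by
    calc (K + (1 - r) * fM A M' r ^ k) ^ ((2 : ℝ) / k) ≤
        ((K + C' ^ k) * (1 - r) ^ (1 - k * θ)) ^ ((2 : ℝ) / k) :=
          Real.rpow_le_rpow (by positivity) h3 hs0.le
      _ = _ := by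
          rw [Real.mul_rpow (by positivity) (by positivity), ← Real.rpow_mul h1r.le]
          congr 2
          field_simp
  have h5 : fM A M ρ ≤ C * (K + C' ^ k) ^ ((2 : ℝ) / k) * (1 - r) ^ (-(2 * θ - 2 / k + η)) := by
    calc fM A M ρ ≤ fM A M' ρ := fM_mono A hMM hρ0
      _ ≤ C * (1 - r) ^ (-η) * (K + (1 - r) * fM A M' r ^ k) ^ ((2 : ℝ) / k) := hM'
      _ ≤ C * (1 - r) ^ (-η) * ((K + C' ^ k) ^ ((2 : ℝ) / k) * (1 - r) ^ (2 / k - 2 * θ)) := by gcongr
      _ = C * (K + C' ^ k) ^ ((2 : ℝ) / k) * ((1 - r) ^ (-η) * (1 - r) ^ (2 / k - 2 * θ)) := by ring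
      _ = _ := by
          rw [← Real.rpow_add h1r]
          congr 2
          ring
  have h6 : (1 - r) ^ (-(2 * θ - 2 / k + η)) ≤
      2 ^ (2 * θ - 2 / k + η) * (1 - ρ) ^ (-(2 * θ - 2 / k + η)) := by
    have h1ρ : 0 < 1 - ρ := by linarith
    have a1 : (1 - ρ) / 2 ≤ 1 - r := by nlinarith
    calc (1 - r) ^ (-(2 * θ - 2 / k + η)) ≤ ((1 - ρ) / 2) ^ (-(2 * θ - 2 / k + η)) :=
          Real.rpow_le_rpow_of_nonpos (by positivity) a1 (by linarith)
      _ = _ := by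
          rw [Real.div_rpow h1ρ.le (by norm_num), Real.rpow_neg (by norm_num : (0 : ℝ) ≤ 2)]
          field_simp
  calc fM A M ρ ≤ _ := h5
    _ ≤ C * (K + C' ^ k) ^ ((2 : ℝ) / k) * (2 ^ (2 * θ - 2 / k + η) *
        (1 - ρ) ^ (-(2 * θ - 2 / k + η))) := by gcongr
    _ = _ := by ring

/-- no exponent below `2/k` -/
theorem exponent {A : Set ℕ} (hA : A.Infinite) {k : ℕ} (hk : 2 ≤ k) {i : ℕ}
    (hi : i ∈ ({1, 2, 3} : Finset ℕ)) {n₀ : ℕ}
    (hmono : ∀ n, n₀ ≤ n → RA A i k n ≤ RA A i k (n + 1)) {θ : ℝ} (hθ : GG A θ) :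
    2 / (k : ℝ) ≤ θ := by
  set T : Set ℝ := {θ | GG A θ} with hT
  have hne : T.Nonempty := ⟨θ, hθ⟩
  have hbdd : BddBelow T := ⟨1 / (k : ℝ), fun x hx => lower hA (by omega) hmono hx⟩
  have hm : 2 / (k : ℝ) ≤ sInf T := by
    apply le_of_forall_pos_lt_add
    intro ε hε
    set η := min (ε / 2) (1 / 2) with hη
    have hη0 : 0 < η := lt_min (by positivity) (by norm_num)
    have hη1 : η < 1 := lt_of_le_of_lt (min_le_right _ _) (by norm_num)
    have hηε : η ≤ ε / 2 := min_le_left _ _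
    have h1 : (sInf T + 2 / k - η) / 2 ≤ sInf T := by
      apply le_csInf hne
      intro x hx
      have h2 : GG A (2 * x - 2 / k + η) := improve hA hk hi hmono hη0 hη1 hx
      have h3 : sInf T ≤ 2 * x - 2 / k + η := csInf_le hbdd h2
      linarith
    linarith
  exact hm.trans (csInf_le hbdd hθ)

/-! ### From the counting function to the growth condition -/

lemma card_succ (A : Set ℕ) (M : ℕ) (r : ℝ) :
    fM A (M + 1) r - fM A M r = (((AM A (M + 1)).card : ℝ) - (AM A M).card) * r ^ (M + 1) := by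
  classical
  by_cases h : M + 1 ∈ A
  · have e : AM A (M + 1) = insert (M + 1) (AM A M) := by
      ext a
      rw [Finset.mem_insert, mem_AM, mem_AM]
      constructor
      · rintro ⟨h1, h2⟩
        rcases Nat.lt_or_ge M a with h3 | h3
        · left; omega
        · right; exact ⟨h3, h2⟩
      · rintro (rfl | ⟨h1, h2⟩)
        · exact ⟨le_rfl, h⟩
        · exact ⟨by omega, h2⟩
    have hn : M + 1 ∉ AM A M := by rw [mem_AM]; omega
    unfold fM
    rw [e, Finset.sum_insert hn, Finset.card_insert_of_notMem hn]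
    push_cast
    ring
  · have e : AM A (M + 1) = AM A M := by
      ext a
      rw [mem_AM, mem_AM]
      constructor
      · rintro ⟨h1, h2⟩
        refine ⟨?_, h2⟩
        by_contra h3
        have : a = M + 1 := by omega
        exact h (this ▸ h2)
      · rintro ⟨h1, h2⟩
        exact ⟨by omega, h2⟩
    unfold fM
    rw [e]
    ring

lemma fM_parts (A : Set ℕ) (M : ℕ) (r : ℝ) : fM A M r =
    ∑ n ∈ range (M + 1), (1 - r) * r ^ n * (AM A n).card + (AM A M).card * r ^ (M + 1) := by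
  induction M with
  | zero =>
    have : fM A 0 r = (AM A 0).card := by
      unfold fM
      have h : ∀ a ∈ AM A 0, r ^ a = 1 := by
        intro a ha
        rw [mem_AM] at ha
        have : a = 0 := by omega
        rw [this, pow_zero]
      rw [Finset.sum_congr rfl h]
      simp
    rw [this]
    simp
    ring
  | succ M ih =>
    have h1 := card_succ A M r
    rw [Finset.sum_range_succ]
    have h2 : fM A (M + 1) r = fM A M r + (((AM A (M + 1)).card : ℝ) - (AM A M).card) * r ^ (M + 1) := by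
      linarith
    rw [h2, ih]
    ring

lemma arith (M : ℕ) (r : ℝ) : (1 - r) ^ 2 * ∑ n ∈ range (M + 1), ((n : ℝ) + 1) * r ^ n =
    1 - (M + 2) * r ^ (M + 1) + (M + 1) * r ^ (M + 2) := by
  induction M with
  | zero => simp; ring
  | succ M ih =>
    rw [Finset.sum_range_succ, mul_add, ih]
    push_cast
    ring

lemma pw {x r θ : ℝ} (hx : 0 < x) (hr : r < 1) (hθ : 0 ≤ θ) (hθ1 : θ ≤ 1) :
    x ^ θ ≤ (1 - r) ^ (-θ) * (1 + x * (1 - r)) := by
  have h1r : 0 < 1 - r := by linarith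
  have hu : 0 < x * (1 - r) := by positivity
  have h1 : x ^ θ = (1 - r) ^ (-θ) * (x * (1 - r)) ^ θ := by
    rw [Real.mul_rpow hx.le h1r.le, Real.rpow_neg h1r.le]
    have : (1 - r) ^ θ ≠ 0 := (Real.rpow_pos_of_pos h1r θ).ne'
    field_simp
  rw [h1]
  apply mul_le_mul_of_nonneg_left _ (by positivity)
  rcases le_total (x * (1 - r)) 1 with h | h
  · have := Real.rpow_le_one hu.le h hθ
    linarith
  · have : (x * (1 - r)) ^ θ ≤ (x * (1 - r)) ^ (1 : ℝ) := Real.rpow_le_rpow_of_exponent_le h hθ1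
    rw [Real.rpow_one] at this
    linarith

/-- a bound for the counting function gives a growth exponent -/
theorem of_count {A : Set ℕ} {θ : ℝ} (hθ : 0 ≤ θ) (hθ1 : θ ≤ 1) {C : ℝ} (hC : 0 < C)
    (h : ∀ n : ℕ, ((AM A n).card : ℝ) ≤ C * ((n : ℝ) + 1) ^ θ) : GG A θ := by
  refine ⟨3 * C, by positivity, fun r hr hr1 M => ?_⟩
  have h1r : 0 < 1 - r := by linarith
  have hr0 : 0 ≤ r := by linarith
  have hcard : ∀ n : ℕ, ((AM A n).card : ℝ) ≤ C * ((1 - r) ^ (-θ) * (1 + (n + 1) * (1 - r))) :=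
    fun n => (h n).trans (mul_le_mul_of_nonneg_left (pw (by positivity) hr1 hθ hθ1) hC.le)
  rw [fM_parts]
  have e1 : ∑ n ∈ range (M + 1), (1 - r) * r ^ n * (AM A n).card ≤
      ∑ n ∈ range (M + 1), (1 - r) * r ^ n * (C * ((1 - r) ^ (-θ) * (1 + (n + 1) * (1 - r)))) :=
    Finset.sum_le_sum fun n _ => mul_le_mul_of_nonneg_left (hcard n) (by positivity)
  have e2 : ∑ n ∈ range (M + 1), (1 - r) * r ^ n * (C * ((1 - r) ^ (-θ) * (1 + (n + 1) * (1 - r)))) =
      C * (1 - r) ^ (-θ) * ((1 - r) * ∑ n ∈ range (M + 1), r ^ n +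
        (1 - r) ^ 2 * ∑ n ∈ range (M + 1), ((n : ℝ) + 1) * r ^ n) := by
    rw [Finset.mul_sum, Finset.mul_sum, ← Finset.sum_add_distrib, Finset.mul_sum]
    refine Finset.sum_congr rfl fun n _ => ?_
    ring
  have e3 : (1 - r) * ∑ n ∈ range (M + 1), r ^ n = 1 - r ^ (M + 1) := by
    rw [mul_comm, geom_sum_mul_neg]
  have e4 := arith M r
  have hp1 : 0 ≤ r ^ (M + 1) := by positivity
  have hp2 : r ^ (M + 2) = r * r ^ (M + 1) := by ring
  have e5 : (1 - r) ^ 2 * ∑ n ∈ range (M + 1), ((n : ℝ) + 1) * r ^ n ≤ 1 := by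
    rw [e4, hp2]
    nlinarith [mul_nonneg (mul_nonneg (Nat.cast_nonneg M : (0 : ℝ) ≤ M) hp1) h1r.le,
      mul_nonneg hp1 h1r.le]
  have e6 : r ^ (M + 1) * (1 + (M + 1) * (1 - r)) ≤ 1 := by
    have e7 : 0 ≤ (1 - r) ^ 2 * ∑ n ∈ range (M + 1), ((n : ℝ) + 1) * r ^ n := by positivity
    rw [e4, hp2] at e7
    linarith
  have hX : 0 < C * (1 - r) ^ (-θ) := by positivity
  have e8 : ((AM A M).card : ℝ) * r ^ (M + 1) ≤ C * (1 - r) ^ (-θ) * 1 := by
    calc ((AM A M).card : ℝ) * r ^ (M + 1) ≤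
        C * ((1 - r) ^ (-θ) * (1 + (M + 1) * (1 - r))) * r ^ (M + 1) :=
          mul_le_mul_of_nonneg_right (hcard M) hp1
      _ = C * (1 - r) ^ (-θ) * (r ^ (M + 1) * (1 + (M + 1) * (1 - r))) := by ring
      _ ≤ _ := by gcongr
  have e9 : C * (1 - r) ^ (-θ) * ((1 - r) * ∑ n ∈ range (M + 1), r ^ n +
        (1 - r) ^ 2 * ∑ n ∈ range (M + 1), ((n : ℝ) + 1) * r ^ n) ≤ C * (1 - r) ^ (-θ) * 2 := by
    apply mul_le_mul_of_nonneg_left _ hX.le
    rw [e3]
    linarith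
  rw [e2] at e1
  linarith

/-- the theorem -/
theorem main (k : ℕ) (hk : 2 ≤ k) (i : ℕ) (hi : i ∈ ({1, 2, 3} : Finset ℕ)) (ε : ℝ) (hε : 0 < ε)
    (A : Set ℕ) (hA : A.Infinite) (h : ∃ n₀ : ℕ, ∀ n : ℕ, n₀ ≤ n → RA A i k n ≤ RA A i k (n + 1)) :
    ¬ Asymptotics.IsBigO Filter.atTop
            (fun n : ℕ => ((A ∩ Set.Icc 1 n).ncard : ℝ))
            (fun n : ℕ => (n : ℝ) ^ ((2 : ℝ) / (k : ℝ) - ε)) := by
  classical
  obtain ⟨n₀, hmono⟩ := h
  intro hO
  have hk0 : (2 : ℝ) ≤ k := by exact_mod_cast hk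
  obtain ⟨c, hc⟩ := hO.bound
  obtain ⟨N, hN⟩ := (hc.and (eventually_ge_atTop 1)).exists_forall_of_atTop
  set θ : ℝ := max (2 / (k : ℝ) - ε) 0 with hθ
  have hθ0 : 0 ≤ θ := le_max_right _ _
  have h2k : (2 : ℝ) / k ≤ 1 := (div_le_one (by linarith)).2 hk0
  have h2k0 : (0 : ℝ) < 2 / k := by positivity
  have hθ1 : θ ≤ 1 := max_le (by linarith) (by norm_num)
  have hθ2 : θ < 2 / k := max_lt (by linarith) h2k0
  have hcard : ∀ n : ℕ, ((AM A n).card : ℝ) ≤ 1 + ((A ∩ Set.Icc 1 n).ncard : ℝ) := by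
    intro n
    have h1 : AM A n ⊆ insert 0 ((AM A n).filter (fun a => 1 ≤ a)) := by
      intro a ha
      rw [Finset.mem_insert, Finset.mem_filter]
      rcases Nat.eq_zero_or_pos a with h | h
      · exact Or.inl h
      · exact Or.inr ⟨ha, h⟩
    have h2 : ((AM A n).filter (fun a => 1 ≤ a)).card = (A ∩ Set.Icc 1 n).ncard := by
      rw [← Set.ncard_coe_finset]
      congr 1
      ext a
      rw [Finset.mem_coe, Finset.mem_filter, mem_AM, Set.mem_inter_iff, Set.mem_Icc]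
      tauto
    have h3 : (AM A n).card ≤ ((AM A n).filter (fun a => 1 ≤ a)).card + 1 :=
      (Finset.card_le_card h1).trans (Finset.card_insert_le _ _)
    rw [h2] at h3
    have : ((AM A n).card : ℝ) ≤ ((A ∩ Set.Icc 1 n).ncard : ℝ) + 1 := by exact_mod_cast h3
    linarith
  have hG : GG A θ := by
    refine of_count hθ0 hθ1 (C := |c| + N + 2) (by positivity) fun n => ?_
    have hn1 : (1 : ℝ) ≤ (n : ℝ) + 1 := by
      have : (0 : ℝ) ≤ n := Nat.cast_nonneg n
      linarith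
    have hp : 1 ≤ ((n : ℝ) + 1) ^ θ := Real.one_le_rpow hn1 hθ0
    have hc0 := abs_nonneg c
    have hN0 : (0 : ℝ) ≤ N := Nat.cast_nonneg N
    rcases Nat.lt_or_ge n N with h1 | h1
    · have h2 : (AM A n).card ≤ n + 1 := by
        calc (AM A n).card ≤ (range (n + 1)).card := by
              unfold AM
              exact Finset.card_le_card (Finset.filter_subset _ _)
          _ = n + 1 := Finset.card_range _
      have h3 : ((AM A n).card : ℝ) ≤ N + 1 := by exact_mod_cast (by omega : (AM A n).card ≤ N + 1)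
      nlinarith
    · obtain ⟨h2, h3⟩ := hN n h1
      rw [Real.norm_of_nonneg (Nat.cast_nonneg _), Real.norm_of_nonneg (by positivity)] at h2
      have hn : (1 : ℝ) ≤ n := by exact_mod_cast h3
      have h4 : (n : ℝ) ^ ((2 : ℝ) / k - ε) ≤ ((n : ℝ) + 1) ^ θ := by
        calc (n : ℝ) ^ ((2 : ℝ) / k - ε) ≤ (n : ℝ) ^ θ :=
              Real.rpow_le_rpow_of_exponent_le hn (le_max_left _ _)
          _ ≤ _ := Real.rpow_le_rpow (by linarith) (by linarith) hθ0
      have h5 : c * (n : ℝ) ^ ((2 : ℝ) / k - ε) ≤ |c| * ((n : ℝ) + 1) ^ θ :=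
        mul_le_mul (le_abs_self c) h4 (by positivity) hc0
      have h6 := hcard n
      nlinarith
  have := exponent hA hk hi hmono hG
  linarith

end Pool.Agent.NH11.RM
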