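import Pool.Agent.NH11.RM.Red

set_option autoImplicit false

/-! # The bound on the circle given by the monotonicity -/

namespace Pool.Agent.NH11.RM

open Finset Filter Topology

/-- the representation function -/
noncomputable def RA (A : Set ℕ) (i k n : ℕ) : ℕ :=
  Set.ncard {a : Fin k → ℕ | (∀ j, a j ∈ A) ∧ (∑ j, a j) = n ∧
    (i = 2 → Monotone a) ∧ (i = 3 → StrictMono a)}

open scoped Classical in
/-- the truncation of the set -/
noncomputable def AM (A : Set ℕ) (M : ℕ) : Finset ℕ := (range (M + 1)).filter (fun a => a ∈ A)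

lemma mem_AM {A : Set ℕ} {M a : ℕ} : a ∈ AM A M ↔ a ≤ M ∧ a ∈ A := by
  classical
  unfold AM
  rw [Finset.mem_filter, Finset.mem_range, Nat.lt_succ_iff]

open scoped Classical in
/-- the set of the tuples -/
noncomputable def TT (A : Set ℕ) (M i k : ℕ) : Finset (Fin k → ℕ) :=
  (Fintype.piFinset fun _ : Fin k => AM A M).filter (fun t => QQ i t)

/-- the truncated representation function -/
noncomputable def RT (A : Set ℕ) (M i k n : ℕ) : ℕ := ((TT A M i k).filter (fun t => ∑ j, t j = n)).card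

lemma mem_TT {A : Set ℕ} {M i k : ℕ} {t : Fin k → ℕ} :
    t ∈ TT A M i k ↔ (∀ j, t j ≤ M ∧ t j ∈ A) ∧ QQ i t := by
  classical
  unfold TT
  rw [Finset.mem_filter, Fintype.mem_piFinset]
  simp only [mem_AM]

lemma RA_fin (A : Set ℕ) (i k n : ℕ) : {a : Fin k → ℕ | (∀ j, a j ∈ A) ∧ (∑ j, a j) = n ∧
    (i = 2 → Monotone a) ∧ (i = 3 → StrictMono a)} ⊆
    ((Fintype.piFinset fun _ : Fin k => range (n + 1) : Finset (Fin k → ℕ)) : Set (Fin k → ℕ)) := by
  intro a ha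
  obtain ⟨-, h2, -⟩ := ha
  rw [Finset.mem_coe, Fintype.mem_piFinset]
  intro j
  rw [Finset.mem_range, Nat.lt_succ_iff, ← h2]
  exact Finset.single_le_sum (f := a) (fun _ _ => Nat.zero_le _) (Finset.mem_univ j)

lemma RA_le (A : Set ℕ) (i k n : ℕ) : RA A i k n ≤ (n + 1) ^ k := by
  unfold RA
  refine (Set.ncard_le_ncard (RA_fin A i k n) (Finset.finite_toSet _)).trans ?_
  rw [Set.ncard_coe_finset]
  simp

lemma RT_le (A : Set ℕ) (M i k n : ℕ) : RT A M i k n ≤ RA A i k n := by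
  classical
  unfold RT RA
  rw [← Set.ncard_coe_finset]
  refine Set.ncard_le_ncard ?_ ((Finset.finite_toSet _).subset (RA_fin A i k n))
  intro t ht
  rw [Finset.mem_coe, Finset.mem_filter, mem_TT] at ht
  obtain ⟨⟨h1, h2⟩, h3⟩ := ht
  exact ⟨fun j => (h1 j).2, h3, h2⟩

lemma RT_eq (A : Set ℕ) {M n : ℕ} (i k : ℕ) (h : n ≤ M) : RT A M i k n = RA A i k n := by
  classical
  unfold RT RA
  rw [← Set.ncard_coe_finset]
  congr 1
  ext t
  rw [Finset.mem_coe, Finset.mem_filter, mem_TT]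
  constructor
  · rintro ⟨⟨h1, h2⟩, h3⟩
    exact ⟨fun j => (h1 j).2, h3, h2⟩
  · rintro ⟨h1, h2, h3⟩
    refine ⟨⟨fun j => ⟨?_, h1 j⟩, h3⟩, h2⟩
    refine le_trans ?_ h
    rw [← h2]
    exact Finset.single_le_sum (f := t) (fun _ _ => Nat.zero_le _) (Finset.mem_univ j)

lemma TS_TT (A : Set ℕ) (M i k : ℕ) (z : ℂ) : TS i k (AM A M) z = ∑ t ∈ TT A M i k, z ^ (∑ j, t j) := by
  classical
  unfold TS TT
  refine Finset.sum_congr rfl fun t _ => ?_
  rw [Finset.prod_pow_eq_pow_sum]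

/-- grouping by the value of the sum -/
lemma group {E : Type*} [Semiring E] (A : Set ℕ) (M i k : ℕ) (z : E) :
    ∑ t ∈ TT A M i k, z ^ (∑ j, t j) = ∑ n ∈ range (k * M + 1), (RT A M i k n : E) * z ^ n := by
  classical
  have hmaps : ∀ t ∈ TT A M i k, (∑ j, t j) ∈ range (k * M + 1) := by
    intro t ht
    rw [mem_TT] at ht
    rw [Finset.mem_range, Nat.lt_succ_iff]
    calc ∑ j, t j ≤ ∑ _j : Fin k, M := Finset.sum_le_sum fun j _ => (ht.1 j).1
      _ = k * M := by simp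
  rw [← Finset.sum_fiberwise_of_maps_to hmaps]
  refine Finset.sum_congr rfl fun n _ => ?_
  unfold RT
  rw [Finset.sum_congr rfl (g := fun _ => z ^ n) fun t ht => by rw [(Finset.mem_filter.1 ht).2]]
  rw [Finset.sum_const, nsmul_eq_mul]

/-- the truncated generating polynomial -/
noncomputable def PM (A : Set ℕ) (M i k : ℕ) (z : ℂ) : ℂ := ∑ n ∈ range (M + 1), (RA A i k n : ℂ) * z ^ n

/-- the same at a real point -/
noncomputable def PR (A : Set ℕ) (M i k : ℕ) (r : ℝ) : ℝ := ∑ n ∈ range (M + 1), (RA A i k n : ℝ) * r ^ n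

/-- truncation error -/
lemma trunc (A : Set ℕ) {M i k : ℕ} (hk : 1 ≤ k) {z : ℂ} {r : ℝ} (hz : ‖z‖ = r) (hr : r ≤ 1) :
    ‖TS i k (AM A M) z - PM A M i k z‖ ≤ (k * M) * (k * M + 1 : ℝ) ^ k * r ^ M := by
  have hr0 : 0 ≤ r := by rw [← hz]; exact norm_nonneg _
  rw [TS_TT, group]
  unfold PM
  have hsub : range (M + 1) ⊆ range (k * M + 1) := by
    apply Finset.range_subset_range.2
    nlinarith
  rw [← Finset.sum_sdiff hsub]
  have e1 : ∑ n ∈ range (M + 1), (RT A M i k n : ℂ) * z ^ n =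
      ∑ n ∈ range (M + 1), (RA A i k n : ℂ) * z ^ n := by
    refine Finset.sum_congr rfl fun n hn => ?_
    rw [RT_eq A i k (Nat.lt_succ_iff.1 (Finset.mem_range.1 hn))]
  rw [e1, add_sub_cancel_right]
  refine (norm_sum_le _ _).trans ?_
  calc ∑ n ∈ range (k * M + 1) \ range (M + 1), ‖(RT A M i k n : ℂ) * z ^ n‖ ≤
      ∑ n ∈ range (k * M + 1) \ range (M + 1), (k * M + 1 : ℝ) ^ k * r ^ M := by
        refine Finset.sum_le_sum fun n hn => ?_
        rw [Finset.mem_sdiff, Finset.mem_range, Finset.mem_range] at hn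
        obtain ⟨h1, h2⟩ := hn
        rw [norm_mul, norm_pow, hz, Complex.norm_natCast]
        apply mul_le_mul _ _ (by positivity) (by positivity)
        · have h3 : RT A M i k n ≤ (k * M + 1) ^ k :=
            ((RT_le A M i k n).trans (RA_le A i k n)).trans (Nat.pow_le_pow_left (by omega) k)
          exact_mod_cast h3
        · exact pow_le_pow_of_le_one hr0 hr (by omega)
    _ = ((range (k * M + 1) \ range (M + 1)).card : ℝ) * ((k * M + 1 : ℝ) ^ k * r ^ M) := by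
        rw [Finset.sum_const, nsmul_eq_mul]
    _ ≤ (k * M) * ((k * M + 1 : ℝ) ^ k * r ^ M) := by
        have h1 : (range (k * M + 1) \ range (M + 1)).card ≤ k * M := by
          rw [Finset.card_sdiff_of_subset hsub, Finset.card_range, Finset.card_range]
          omega
        have h2 : ((range (k * M + 1) \ range (M + 1)).card : ℝ) ≤ k * M := by exact_mod_cast h1
        gcongr
    _ = _ := by ring

/-- summation by parts -/
lemma parts {E : Type*} [CommRing E] (c : ℕ → E) (z : E) (M : ℕ) :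
    (1 - z) * ∑ n ∈ range (M + 1), c n * z ^ n =
      c 0 + ∑ n ∈ range M, (c (n + 1) - c n) * z ^ (n + 1) - c M * z ^ (M + 1) := by
  induction M with
  | zero => simp; ring
  | succ M ih =>
    rw [Finset.sum_range_succ, mul_add, ih, Finset.sum_range_succ (n := M)]
    ring

/-- the bound on the circle -/
lemma circle (A : Set ℕ) (i k : ℕ) {n₀ : ℕ} (hmono : ∀ n, n₀ ≤ n → RA A i k n ≤ RA A i k (n + 1))
    {z : ℂ} {r : ℝ} (hz : ‖z‖ = r) (hr : r ≤ 1) (M : ℕ) :
    ‖1 - z‖ * ‖PM A M i k z‖ ≤ (1 - r) * PR A M i k r + 2 * (RA A i k M * r ^ (M + 1)) +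
      2 * ∑ n ∈ range n₀, |(RA A i k (n + 1) : ℝ) - RA A i k n| := by
  have hr0 : 0 ≤ r := by rw [← hz]; exact norm_nonneg _
  have h1 := parts (fun n => (RA A i k n : ℂ)) z M
  have h2 := parts (fun n => (RA A i k n : ℝ)) r M
  have h3 : ‖1 - z‖ * ‖PM A M i k z‖ ≤ RA A i k 0 +
      ∑ n ∈ range M, |(RA A i k (n + 1) : ℝ) - RA A i k n| * r ^ (n + 1) +
      RA A i k M * r ^ (M + 1) := by
    rw [← norm_mul]
    unfold PM
    rw [h1]
    refine (norm_sub_le _ _).trans ?_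
    rw [norm_mul, norm_pow, hz, Complex.norm_natCast]
    gcongr
    refine (norm_add_le _ _).trans ?_
    rw [Complex.norm_natCast]
    gcongr
    refine (norm_sum_le _ _).trans (Finset.sum_le_sum fun n _ => ?_)
    rw [norm_mul, norm_pow, hz]
    have : ((RA A i k (n + 1) : ℂ) - RA A i k n) = (((RA A i k (n + 1) : ℝ) - RA A i k n : ℝ) : ℂ) := by
      push_cast; ring
    rw [this, Complex.norm_real, Real.norm_eq_abs]
  have h4 : ∑ n ∈ range M, |(RA A i k (n + 1) : ℝ) - RA A i k n| * r ^ (n + 1) ≤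
      ∑ n ∈ range M, ((RA A i k (n + 1) : ℝ) - RA A i k n) * r ^ (n + 1) +
      2 * ∑ n ∈ range n₀, |(RA A i k (n + 1) : ℝ) - RA A i k n| := by
    have h5 : ∀ n, |(RA A i k (n + 1) : ℝ) - RA A i k n| * r ^ (n + 1) ≤
        ((RA A i k (n + 1) : ℝ) - RA A i k n) * r ^ (n + 1) +
        (if n < n₀ then 2 * |(RA A i k (n + 1) : ℝ) - RA A i k n| else 0) := by
      intro n
      have hp : r ^ (n + 1) ≤ 1 := pow_le_one₀ hr0 hr
      have hp0 : 0 ≤ r ^ (n + 1) := by positivity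
      split_ifs with h
      · have a1 := neg_abs_le ((RA A i k (n + 1) : ℝ) - RA A i k n)
        have a2 := abs_nonneg ((RA A i k (n + 1) : ℝ) - RA A i k n)
        nlinarith
      · have : (RA A i k n : ℝ) ≤ RA A i k (n + 1) := by exact_mod_cast hmono n (by omega)
        rw [abs_of_nonneg (by linarith)]
        linarith
    refine (Finset.sum_le_sum fun n _ => h5 n).trans ?_
    rw [Finset.sum_add_distrib]
    gcongr
    rw [← Finset.sum_filter, ← Finset.mul_sum]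
    gcongr
    intro n hn
    rw [Finset.mem_filter] at hn
    exact Finset.mem_range.2 hn.2
  unfold PR
  linarith

/-- the sum of the powers over the truncated set -/
noncomputable def fM (A : Set ℕ) (M : ℕ) (r : ℝ) : ℝ := ∑ a ∈ AM A M, r ^ a

lemma PR_le (A : Set ℕ) (M i : ℕ) {k : ℕ} (hk : 1 ≤ k) {r : ℝ} (hr0 : 0 ≤ r) :
    PR A M i k r ≤ fM A M r ^ k := by
  classical
  have h1 : PR A M i k r ≤ ∑ t ∈ TT A M i k, r ^ (∑ j, t j) := by
    rw [group]
    unfold PR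
    have hsub : range (M + 1) ⊆ range (k * M + 1) := by
      apply Finset.range_subset_range.2
      nlinarith
    calc ∑ n ∈ range (M + 1), (RA A i k n : ℝ) * r ^ n =
        ∑ n ∈ range (M + 1), (RT A M i k n : ℝ) * r ^ n := by
          refine Finset.sum_congr rfl fun n hn => ?_
          rw [RT_eq A i k (Nat.lt_succ_iff.1 (Finset.mem_range.1 hn))]
      _ ≤ _ := Finset.sum_le_sum_of_subset_of_nonneg hsub fun n _ _ => by positivity
  have h2 : ∑ t ∈ TT A M i k, r ^ (∑ j, t j) ≤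
      ∑ t ∈ Fintype.piFinset (fun _ : Fin k => AM A M), r ^ (∑ j, t j) := by
    unfold TT
    exact Finset.sum_le_sum_of_subset_of_nonneg (Finset.filter_subset _ _)
      fun t _ _ => by positivity
  have h3 : ∑ t ∈ Fintype.piFinset (fun _ : Fin k => AM A M), r ^ (∑ j, t j) = fM A M r ^ k := by
    unfold fM
    have h := Finset.prod_univ_sum (fun _ : Fin k => AM A M) (fun _ a => r ^ a)
    simp only [Finset.prod_const, Finset.card_univ, Fintype.card_fin] at h
    rw [h]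
    exact Finset.sum_congr rfl fun t _ => (Finset.prod_pow_eq_pow_sum _ _ _).symm
  linarith

/-- all the errors tend to zero -/
lemma small {r : ℝ} (hr0 : 0 ≤ r) (hr : r < 1) (k : ℕ) :
    ∀ᶠ M : ℕ in atTop, 2 * ((k * M) * (k * M + 1 : ℝ) ^ k * r ^ M) +
      2 * ((M + 1 : ℝ) ^ k * r ^ (M + 1)) ≤ 1 := by
  have h1 : Tendsto (fun M : ℕ => (M : ℝ) ^ (k + 1) * r ^ M) atTop (𝓝 0) :=
    tendsto_pow_const_mul_const_pow_of_abs_lt_one (k + 1) (by rwa [abs_of_nonneg hr0])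
  have h2 : Tendsto (fun M : ℕ => (2 * (k * (k + 1 : ℝ) ^ k) + 2 * 2 ^ k) *
      ((M : ℝ) ^ (k + 1) * r ^ M)) atTop (𝓝 0) := by
    simpa using h1.const_mul (2 * (k * (k + 1 : ℝ) ^ k) + 2 * 2 ^ k)
  filter_upwards [h2.eventually (gt_mem_nhds one_pos), eventually_ge_atTop 1] with M hM hM1
  refine le_trans ?_ hM.le
  have hM1' : (1 : ℝ) ≤ M := by exact_mod_cast hM1
  have a1 : (k * M + 1 : ℝ) ^ k ≤ ((k + 1) * M : ℝ) ^ k := by
    gcongr
    linarith
  have a2 : (M + 1 : ℝ) ^ k ≤ (2 * M : ℝ) ^ k := by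
    gcongr
    linarith
  have a3 : r ^ (M + 1) ≤ r ^ M := pow_le_pow_of_le_one hr0 hr.le (by omega)
  have a4 : (M : ℝ) ^ k ≤ (M : ℝ) ^ (k + 1) := pow_le_pow_right₀ hM1' (by omega)
  calc 2 * ((k * M) * (k * M + 1 : ℝ) ^ k * r ^ M) + 2 * ((M + 1 : ℝ) ^ k * r ^ (M + 1)) ≤
      2 * ((k * M) * ((k + 1) * M : ℝ) ^ k * r ^ M) + 2 * ((2 * M : ℝ) ^ k * r ^ M) := by gcongr
    _ = 2 * (k * (k + 1 : ℝ) ^ k * ((M : ℝ) ^ (k + 1) * r ^ M)) + 2 * (2 ^ k * ((M : ℝ) ^ k * r ^ M)) := by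
        rw [mul_pow, mul_pow]
        ring
    _ ≤ 2 * (k * (k + 1 : ℝ) ^ k * ((M : ℝ) ^ (k + 1) * r ^ M)) +
        2 * (2 ^ k * ((M : ℝ) ^ (k + 1) * r ^ M)) := by gcongr
    _ = _ := by ring

/-- the final bound on the circle -/
theorem final_circle (A : Set ℕ) (i k : ℕ) (hk : 1 ≤ k) {n₀ : ℕ}
    (hmono : ∀ n, n₀ ≤ n → RA A i k n ≤ RA A i k (n + 1)) :
    ∃ K : ℝ, 1 ≤ K ∧ ∀ r : ℝ, 0 ≤ r → r < 1 → ∀ᶠ M : ℕ in atTop, ∀ z : ℂ, ‖z‖ = r →
      ‖1 - z‖ * ‖TS i k (AM A M) z‖ ≤ K + (1 - r) * fM A M r ^ k := by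
  refine ⟨1 + 2 * ∑ n ∈ range n₀, |(RA A i k (n + 1) : ℝ) - RA A i k n|, ?_, fun r hr0 hr => ?_⟩
  · have : 0 ≤ ∑ n ∈ range n₀, |(RA A i k (n + 1) : ℝ) - RA A i k n| :=
      Finset.sum_nonneg fun _ _ => abs_nonneg _
    linarith
  · filter_upwards [small hr0 hr k] with M hM z hz
    have h1 := circle A i k hmono hz hr.le M
    have h2 := trunc A (M := M) (i := i) hk hz hr.le
    have h3 := PR_le A M i hk hr0
    have h4 : ‖TS i k (AM A M) z‖ ≤ ‖PM A M i k z‖ + ‖TS i k (AM A M) z - PM A M i k z‖ := by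
      have := norm_add_le (PM A M i k z) (TS i k (AM A M) z - PM A M i k z)
      rwa [add_sub_cancel] at this
    have h5 : ‖1 - z‖ ≤ 2 := by
      have := norm_sub_le 1 z
      rw [norm_one, hz] at this
      linarith
    have h6 : (RA A i k M : ℝ) * r ^ (M + 1) ≤ (M + 1 : ℝ) ^ k * r ^ (M + 1) := by
      have : (RA A i k M : ℝ) ≤ (M + 1 : ℝ) ^ k := by exact_mod_cast RA_le A i k M
      gcongr
    have h7 : (1 - r) * PR A M i k r ≤ (1 - r) * fM A M r ^ k := by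
      apply mul_le_mul_of_nonneg_left h3
      linarith
    have h8 : ‖1 - z‖ * ‖TS i k (AM A M) z‖ ≤ ‖1 - z‖ * ‖PM A M i k z‖ +
        2 * ‖TS i k (AM A M) z - PM A M i k z‖ := by
      calc ‖1 - z‖ * ‖TS i k (AM A M) z‖ ≤ ‖1 - z‖ * (‖PM A M i k z‖ +
          ‖TS i k (AM A M) z - PM A M i k z‖) := by gcongr
        _ = ‖1 - z‖ * ‖PM A M i k z‖ + ‖1 - z‖ * ‖TS i k (AM A M) z - PM A M i k z‖ := by ring
        _ ≤ _ := by gcongr
    linarith

end Pool.Agent.NH11.RM
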