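import Mathlib

set_option autoImplicit false

/-! # Newton's identities for the sums over ordered tuples -/

namespace Pool.Agent.NH11.RM

open PowerSeries Finset

/-- the geometric series -/
noncomputable def gs (x : ℂ) : PowerSeries ℂ := PowerSeries.mk fun n => x ^ n

lemma gs_mul (x : ℂ) : (1 - C x * X) * gs x = 1 := by
  ext n
  rw [sub_mul, one_mul, map_sub, mul_assoc, coeff_C_mul]
  cases n with
  | zero => simp [gs]
  | succ n =>
    rw [coeff_succ_X_mul]
    simp [gs, coeff_one, pow_succ]
    ring

lemma d_gs (x : ℂ) : d⁄dX ℂ (gs x) = gs x * (C x * gs x) := by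
  have h := congrArg (d⁄dX ℂ) (gs_mul x)
  have h1 : d⁄dX ℂ (1 - C x * X : PowerSeries ℂ) = - C x := by
    rw [map_sub, Derivation.leibniz]
    simp
  rw [Derivation.leibniz, h1] at h
  simp only [smul_eq_mul, Derivation.map_one_eq_zero] at h
  have h2 : (1 - C x * X) * d⁄dX ℂ (gs x) = gs x * C x := by linear_combination h
  calc d⁄dX ℂ (gs x) = ((1 - C x * X) * gs x) * d⁄dX ℂ (gs x) := by rw [gs_mul, one_mul]
    _ = gs x * ((1 - C x * X) * d⁄dX ℂ (gs x)) := by ring
    _ = _ := by rw [h2]; ring

/-- the generating series of the complete homogeneous sums -/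
noncomputable def HS (S : Finset ℕ) (x : ℕ → ℂ) : PowerSeries ℂ := ∏ a ∈ S, gs (x a)

/-- the generating series of the elementary symmetric sums -/
noncomputable def ES (S : Finset ℕ) (x : ℕ → ℂ) : PowerSeries ℂ := ∏ a ∈ S, (1 + C (x a) * X)

lemma d_prod {ι : Type*} (S : Finset ι) (f g : ι → PowerSeries ℂ)
    (h : ∀ a ∈ S, d⁄dX ℂ (f a) = f a * g a) :
    d⁄dX ℂ (∏ a ∈ S, f a) = (∏ a ∈ S, f a) * ∑ a ∈ S, g a := by
  classical
  induction S using Finset.induction_on with
  | empty => simp
  | insert a S ha ih =>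
    rw [Finset.prod_insert ha, Finset.sum_insert ha, Derivation.leibniz, smul_eq_mul, smul_eq_mul,
      ih fun b hb => h b (Finset.mem_insert_of_mem hb), h a (Finset.mem_insert_self _ _)]
    ring

lemma d_HS (S : Finset ℕ) (x : ℕ → ℂ) :
    d⁄dX ℂ (HS S x) = HS S x * ∑ a ∈ S, C (x a) * gs (x a) :=
  d_prod S _ _ fun a _ => d_gs (x a)

lemma d_ES (S : Finset ℕ) (x : ℕ → ℂ) :
    d⁄dX ℂ (ES S x) = ES S x * ∑ a ∈ S, C (x a) * gs (-x a) := by
  refine d_prod S _ _ fun a _ => ?_
  have h1 : d⁄dX ℂ (1 + C (x a) * X : PowerSeries ℂ) = C (x a) := by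
    rw [map_add, Derivation.leibniz]
    simp
  have h2 := gs_mul (-x a)
  rw [h1]
  have h3 : (1 - C (-x a) * X : PowerSeries ℂ) = 1 + C (x a) * X := by
    rw [map_neg]; ring
  rw [h3] at h2
  calc C (x a) = C (x a) * ((1 + C (x a) * X) * gs (-x a)) := by rw [h2, mul_one]
    _ = _ := by ring

/-- power sums -/
noncomputable def ps (S : Finset ℕ) (x : ℕ → ℂ) (j : ℕ) : ℂ := ∑ a ∈ S, x a ^ j

lemma newton_H (S : Finset ℕ) (x : ℕ → ℂ) (k : ℕ) :
    ((k : ℂ) + 1) * coeff (k + 1) (HS S x) =
      ∑ p ∈ antidiagonal k, coeff p.1 (HS S x) * ps S x (p.2 + 1) := by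
  have h := congrArg (coeff k) (d_HS S x)
  rw [coeff_derivative, coeff_mul] at h
  rw [mul_comm, h]
  refine Finset.sum_congr rfl fun p _ => ?_
  congr 1
  rw [map_sum]
  refine Finset.sum_congr rfl fun a _ => ?_
  rw [coeff_C_mul]
  simp [gs, pow_succ]
  ring

lemma newton_E (S : Finset ℕ) (x : ℕ → ℂ) (k : ℕ) :
    ((k : ℂ) + 1) * coeff (k + 1) (ES S x) =
      ∑ p ∈ antidiagonal k, coeff p.1 (ES S x) * ((-1) ^ p.2 * ps S x (p.2 + 1)) := by
  have h := congrArg (coeff k) (d_ES S x)
  rw [coeff_derivative, coeff_mul] at h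
  rw [mul_comm, h]
  refine Finset.sum_congr rfl fun p _ => ?_
  congr 1
  rw [map_sum]
  unfold ps
  rw [Finset.mul_sum]
  refine Finset.sum_congr rfl fun a _ => ?_
  rw [coeff_C_mul]
  simp only [gs, coeff_mk]
  rw [neg_pow, pow_succ]
  ring

lemma HS_zero (S : Finset ℕ) (x : ℕ → ℂ) : coeff 0 (HS S x) = 1 := by
  unfold HS
  rw [coeff_zero_eq_constantCoeff, map_prod]
  apply Finset.prod_eq_one
  intro a _
  rw [← coeff_zero_eq_constantCoeff_apply]
  simp [gs]

lemma ES_zero (S : Finset ℕ) (x : ℕ → ℂ) : coeff 0 (ES S x) = 1 := by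
  unfold ES
  rw [coeff_zero_eq_constantCoeff, map_prod]
  apply Finset.prod_eq_one
  intro a _
  simp

/-- sum over the non-decreasing tuples -/
noncomputable def mt (S : Finset ℕ) (x : ℕ → ℂ) (k : ℕ) : ℂ := by
  classical
  exact ∑ t ∈ (Fintype.piFinset fun _ : Fin k => S).filter (fun t => Monotone t), ∏ j, x (t j)

/-- sum over the increasing tuples -/
noncomputable def st (S : Finset ℕ) (x : ℕ → ℂ) (k : ℕ) : ℂ := by
  classical
  exact ∑ t ∈ (Fintype.piFinset fun _ : Fin k => S).filter (fun t => StrictMono t), ∏ j, x (t j)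

lemma mt_rec (S : Finset ℕ) (x : ℕ → ℂ) (a : ℕ) (ha : ∀ b ∈ S, a < b) (k : ℕ) :
    mt (insert a S) x (k + 1) = mt S x (k + 1) + x a * mt (insert a S) x k := by
  classical
  have haS : a ∉ S := fun h => lt_irrefl _ (ha a h)
  unfold mt
  rw [← Finset.sum_filter_add_sum_filter_not _ (fun t : Fin (k + 1) → ℕ => t 0 = a), add_comm]
  congr 1
  · -- the first entry is not `a`
    apply Finset.sum_congr _ fun _ _ => rfl
    ext t
    simp only [Finset.mem_filter, Fintype.mem_piFinset]
    constructor
    · rintro ⟨⟨h1, h2⟩, h3⟩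
      refine ⟨fun j => ?_, h2⟩
      have h4 : t 0 ∈ S := by
        rcases Finset.mem_insert.1 (h1 0) with h | h
        · exact absurd h h3
        · exact h
      rcases Finset.mem_insert.1 (h1 j) with h | h
      · have h5 := h2 (Fin.zero_le j)
        have h6 := ha _ h4
        omega
      · exact h
    · rintro ⟨h1, h2⟩
      refine ⟨⟨fun j => Finset.mem_insert_of_mem (h1 j), h2⟩, fun h => ?_⟩
      apply haS
      rw [← h]
      exact h1 0
  · rw [Finset.mul_sum]
    refine Finset.sum_bij' (fun t _ => Fin.tail t) (fun s _ => Fin.cons a s) ?_ ?_ ?_ ?_ ?_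
    · intro t ht
      simp only [Finset.mem_filter, Fintype.mem_piFinset] at ht ⊢
      obtain ⟨⟨h1, h2⟩, h3⟩ := ht
      refine ⟨fun j => h1 _, fun i j hij => h2 (Fin.succ_le_succ_iff.2 hij)⟩
    · intro s hs
      simp only [Finset.mem_filter, Fintype.mem_piFinset] at hs ⊢
      obtain ⟨h1, h2⟩ := hs
      refine ⟨⟨fun j => ?_, ?_⟩, rfl⟩
      · refine Fin.cases ?_ (fun i => ?_) j
        · exact Finset.mem_insert_self _ _
        · exact h1 i
      · intro i j
        refine Fin.cases ?_ (fun i => ?_) i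
        · intro _
          refine Fin.cases le_rfl (fun j => ?_) j
          show a ≤ s j
          rcases Finset.mem_insert.1 (h1 j) with h | h
          · exact h.ge
          · exact (ha _ h).le
        · refine Fin.cases ?_ (fun j => ?_) j
          · intro h
            exact absurd h (by simp [Fin.le_def])
          · intro h
            exact h2 (Fin.succ_le_succ_iff.1 h)
    · intro t ht
      simp only [Finset.mem_filter, Fintype.mem_piFinset] at ht
      obtain ⟨-, h3⟩ := ht
      show Fin.cons a (Fin.tail t) = t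
      rw [← h3]
      exact Fin.cons_self_tail t
    · intro s hs
      exact Fin.tail_cons _ _
    · intro t ht
      simp only [Finset.mem_filter, Fintype.mem_piFinset] at ht
      obtain ⟨-, h3⟩ := ht
      rw [Fin.prod_univ_succ, h3]
      rfl

lemma st_rec (S : Finset ℕ) (x : ℕ → ℂ) (a : ℕ) (ha : ∀ b ∈ S, a < b) (k : ℕ) :
    st (insert a S) x (k + 1) = st S x (k + 1) + x a * st S x k := by
  classical
  have haS : a ∉ S := fun h => lt_irrefl _ (ha a h)
  unfold st
  rw [← Finset.sum_filter_add_sum_filter_not _ (fun t : Fin (k + 1) → ℕ => t 0 = a), add_comm]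
  congr 1
  · -- the first entry is not `a`
    apply Finset.sum_congr _ fun _ _ => rfl
    ext t
    simp only [Finset.mem_filter, Fintype.mem_piFinset]
    constructor
    · rintro ⟨⟨h1, h2⟩, h3⟩
      refine ⟨fun j => ?_, h2⟩
      have h4 : t 0 ∈ S := by
        rcases Finset.mem_insert.1 (h1 0) with h | h
        · exact absurd h h3
        · exact h
      rcases Finset.mem_insert.1 (h1 j) with h | h
      · have h5 := h2.monotone (Fin.zero_le j)
        have h6 := ha _ h4
        omega
      · exact h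
    · rintro ⟨h1, h2⟩
      refine ⟨⟨fun j => Finset.mem_insert_of_mem (h1 j), h2⟩, fun h => ?_⟩
      apply haS
      rw [← h]
      exact h1 0
  · rw [Finset.mul_sum]
    refine Finset.sum_bij' (fun t _ => Fin.tail t) (fun s _ => Fin.cons a s) ?_ ?_ ?_ ?_ ?_
    · intro t ht
      simp only [Finset.mem_filter, Fintype.mem_piFinset] at ht ⊢
      obtain ⟨⟨h1, h2⟩, h3⟩ := ht
      refine ⟨fun j => ?_, fun i j hij => h2 (Fin.succ_lt_succ_iff.2 hij)⟩
      show t j.succ ∈ S
      rcases Finset.mem_insert.1 (h1 j.succ) with h | h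
      · exfalso
        have := h2 (Fin.succ_pos j)
        omega
      · exact h
    · intro s hs
      simp only [Finset.mem_filter, Fintype.mem_piFinset] at hs ⊢
      obtain ⟨h1, h2⟩ := hs
      refine ⟨⟨fun j => ?_, ?_⟩, rfl⟩
      · refine Fin.cases ?_ (fun i => ?_) j
        · exact Finset.mem_insert_self _ _
        · exact Finset.mem_insert_of_mem (h1 i)
      · intro i j
        refine Fin.cases ?_ (fun i => ?_) i
        · refine Fin.cases ?_ (fun j => ?_) j
          · intro h; exact absurd h (lt_irrefl _)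
          · intro _
            show a < s j
            exact ha _ (h1 j)
        · refine Fin.cases ?_ (fun j => ?_) j
          · intro h
            exact absurd h (by simp [Fin.lt_def])
          · intro h
            exact h2 (Fin.succ_lt_succ_iff.1 h)
    · intro t ht
      simp only [Finset.mem_filter, Fintype.mem_piFinset] at ht
      obtain ⟨-, h3⟩ := ht
      show Fin.cons a (Fin.tail t) = t
      rw [← h3]
      exact Fin.cons_self_tail t
    · intro s hs
      exact Fin.tail_cons _ _
    · intro t ht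
      simp only [Finset.mem_filter, Fintype.mem_piFinset] at ht
      obtain ⟨-, h3⟩ := ht
      rw [Fin.prod_univ_succ, h3]
      rfl

lemma mt_zero (S : Finset ℕ) (x : ℕ → ℂ) : mt S x 0 = 1 := by
  classical
  unfold mt
  rw [Finset.filter_true_of_mem]
  · simp
  · intro t _ i
    exact i.elim0

lemma st_zero (S : Finset ℕ) (x : ℕ → ℂ) : st S x 0 = 1 := by
  classical
  unfold st
  rw [Finset.filter_true_of_mem]
  · simp
  · intro t _ i
    exact i.elim0

lemma mt_empty (x : ℕ → ℂ) (k : ℕ) : mt ∅ x (k + 1) = 0 := by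
  classical
  unfold mt
  apply Finset.sum_eq_zero
  intro t ht
  simp only [Finset.mem_filter, Fintype.mem_piFinset] at ht
  exact absurd (ht.1 0) (Finset.notMem_empty _)

lemma st_empty (x : ℕ → ℂ) (k : ℕ) : st ∅ x (k + 1) = 0 := by
  classical
  unfold st
  apply Finset.sum_eq_zero
  intro t ht
  simp only [Finset.mem_filter, Fintype.mem_piFinset] at ht
  exact absurd (ht.1 0) (Finset.notMem_empty _)

theorem mt_eq (S : Finset ℕ) (x : ℕ → ℂ) (k : ℕ) : mt S x k = coeff k (HS S x) := by
  classical
  revert k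
  induction S using Finset.induction_on_min with
  | empty =>
    intro k
    cases k with
    | zero => rw [mt_zero, HS_zero]
    | succ k =>
      rw [mt_empty]
      unfold HS
      simp [coeff_one]
  | insert a S ha ih =>
    have haS : a ∉ S := fun h => lt_irrefl _ (ha a h)
    intro k
    induction k with
    | zero => rw [mt_zero, HS_zero]
    | succ k ihk =>
      rw [mt_rec S x a ha, ih, ihk]
      have h1 : (1 - C (x a) * X) * HS (insert a S) x = HS S x := by
        unfold HS
        rw [Finset.prod_insert haS, ← mul_assoc, gs_mul, one_mul]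
      have h2 := congrArg (coeff (k + 1)) h1
      rw [sub_mul, one_mul, map_sub, mul_assoc, coeff_C_mul, coeff_succ_X_mul] at h2
      rw [← h2]
      ring

theorem st_eq (S : Finset ℕ) (x : ℕ → ℂ) (k : ℕ) : st S x k = coeff k (ES S x) := by
  classical
  revert k
  induction S using Finset.induction_on_min with
  | empty =>
    intro k
    cases k with
    | zero => rw [st_zero, ES_zero]
    | succ k =>
      rw [st_empty]
      unfold ES
      simp [coeff_one]
  | insert a S ha ih =>
    have haS : a ∉ S := fun h => lt_irrefl _ (ha a h)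
    intro k
    cases k with
    | zero => rw [st_zero, ES_zero]
    | succ k =>
      rw [st_rec S x a ha, ih, ih]
      unfold ES
      rw [Finset.prod_insert haS, add_mul, one_mul, map_add, mul_assoc, coeff_C_mul,
        coeff_succ_X_mul]

end Pool.Agent.NH11.RM
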