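import Pool.Agent.NH11.RM.Newton
import Pool.Agent.NH11.RM.Circle

set_option autoImplicit false

/-! # Comparison of the sum of squares with the restricted sums -/

namespace Pool.Agent.NH11.RM

open MeasureTheory Finset
open scoped ENNReal

/-- the condition on the tuples -/
def QQ (i : ℕ) {k : ℕ} (a : Fin k → ℕ) : Prop := (i = 2 → Monotone a) ∧ (i = 3 → StrictMono a)

/-- the sum over the tuples with the condition -/
noncomputable def TS (i k : ℕ) (S : Finset ℕ) (z : ℂ) : ℂ := by
  classical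
  exact ∑ t ∈ (Fintype.piFinset fun _ : Fin k => S).filter (fun t => QQ i t), ∏ j, z ^ t j

lemma TS_one (k : ℕ) (S : Finset ℕ) (z : ℂ) : TS 1 k S z = (∑ a ∈ S, z ^ a) ^ k := by
  classical
  unfold TS
  rw [Finset.filter_true_of_mem]
  · have h := Finset.prod_univ_sum (fun _ : Fin k => S) (fun _ a => z ^ a)
    rw [← h]
    simp
  · intro t _
    unfold QQ
    constructor <;> intro h <;> omega

lemma TS_two (k : ℕ) (S : Finset ℕ) (z : ℂ) : TS 2 k S z = mt S (fun a => z ^ a) k := by
  classical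
  unfold TS mt
  apply Finset.sum_congr _ fun _ _ => rfl
  ext t
  simp [QQ]

lemma TS_three (k : ℕ) (S : Finset ℕ) (z : ℂ) : TS 3 k S z = st S (fun a => z ^ a) k := by
  classical
  unfold TS st
  apply Finset.sum_congr _ fun _ _ => rfl
  ext t
  simp [QQ]

lemma mt_meas (S : Finset ℕ) (r : ℝ) (k : ℕ) :
    Measurable fun t => mt S (fun a => zz r t ^ a) k := by
  apply Continuous.measurable
  unfold mt
  have := zz_cont r
  fun_prop

lemma st_meas (S : Finset ℕ) (r : ℝ) (k : ℕ) :
    Measurable fun t => st S (fun a => zz r t ^ a) k := by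
  apply Continuous.measurable
  unfold st
  have := zz_cont r
  fun_prop

lemma ps_meas (S : Finset ℕ) (r : ℝ) (k : ℕ) :
    Measurable fun t => ps S (fun a => zz r t ^ a) k := by
  apply Continuous.measurable
  unfold ps
  have := zz_cont r
  fun_prop

/-- the sum of squares -/
noncomputable def sq (S : Finset ℕ) (r : ℝ) : ℝ := ∑ a ∈ S, r ^ (2 * a)

lemma ps_bound (S : Finset ℕ) {r : ℝ} (hr : 0 ≤ r) (hr1 : r ≤ 1) (j : ℕ) :
    II mu 1 (fun t => ps S (fun a => zz r t ^ a) (j + 1)) ≤ ENNReal.ofReal (sq S r) := by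
  unfold ps
  rw [parseval S (j + 1) (by omega)]
  apply ENNReal.ofReal_le_ofReal
  unfold sq
  refine Finset.sum_le_sum fun a _ => ?_
  apply pow_le_pow_of_le_one hr hr1
  nlinarith [Nat.zero_le (a * j)]

lemma ps_one (S : Finset ℕ) (r : ℝ) :
    II mu 1 (fun t => ps S (fun a => zz r t ^ a) 1) = ENNReal.ofReal (sq S r) := by
  unfold ps
  rw [parseval S 1 le_rfl]
  unfold sq
  simp

lemma data_mt (S : Finset ℕ) {r : ℝ} (hr : 0 ≤ r) (hr1 : r ≤ 1) :
    Data mu (fun k t => mt S (fun a => zz r t ^ a) k)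
      (fun j t => ps S (fun a => zz r t ^ a) (j + 1)) (max 1 (ENNReal.ofReal (sq S r))) where
  mu := mt_meas S r
  mq := fun k => ps_meas S r (k + 1)
  S1 := le_max_left _ _
  hS := fun j => (ps_bound S hr hr1 j).trans (le_max_right _ _)
  u0 := fun t => mt_zero _ _
  rc := fun k t => by
    simp only [mt_eq]
    exact newton_H S _ k

lemma data_st (S : Finset ℕ) {r : ℝ} (hr : 0 ≤ r) (hr1 : r ≤ 1) :
    Data mu (fun k t => st S (fun a => zz r t ^ a) k)
      (fun j t => (-1) ^ j * ps S (fun a => zz r t ^ a) (j + 1))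
      (max 1 (ENNReal.ofReal (sq S r))) where
  mu := st_meas S r
  mq := fun k => (ps_meas S r (k + 1)).const_mul _
  S1 := le_max_left _ _
  hS := fun j => by
    refine le_trans (II_mono (h := fun t => ps S (fun a => zz r t ^ a) (j + 1)) fun t => ?_)
      ((ps_bound S hr hr1 j).trans (le_max_right _ _))
    rw [norm_mul, norm_pow, norm_neg, norm_one, one_pow, one_mul]
  u0 := fun t => st_zero _ _
  rc := fun k t => by
    simp only [st_eq]
    exact newton_E S _ k

/-- from the data to the comparison -/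
lemma of_data {k : ℕ} (hk : 2 ≤ k) {C : ℝ≥0∞} {u q : ℕ → ℝ → ℂ} {s : ℝ≥0∞}
    (hD : Data mu u q (max 1 s)) (hs : II mu 1 (q 0) = s)
    (h : II mu k (fun t => u k t - q 0 t ^ k / (k.factorial : ℂ)) ≤
      C * (max 1 s) ^ (((k : ℝ) - 1) / k)) :
    s ≤ ((k.factorial : ℝ≥0∞) ^ ((2 : ℝ) / k) * (1 + C)) *
      (II mu k (u k) + (max 1 s) ^ (((k : ℝ) - 1) / k)) := by
  have hf0 : (k.factorial : ℂ) ≠ 0 := by exact_mod_cast (Nat.factorial_pos _).ne'
  have h1 : s = (k.factorial : ℝ≥0∞) ^ ((2 : ℝ) / k) *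
      II mu k (fun t => q 0 t ^ k / (k.factorial : ℂ)) := by
    rw [← hs, ← II_pow (by omega : 1 ≤ k) (q 0)]
    unfold II
    rw [← lintegral_const_mul' _ _ (by
      apply ENNReal.rpow_ne_top_of_nonneg (by positivity)
      exact ENNReal.natCast_ne_top _)]
    refine lintegral_congr fun t => ?_
    rw [← ENNReal.mul_rpow_of_nonneg _ _ (by positivity)]
    congr 1
    have e : q 0 t ^ k = (k.factorial : ℂ) * (q 0 t ^ k / (k.factorial : ℂ)) := by field_simp
    show ‖q 0 t ^ k‖ₑ = _
    conv_lhs => rw [e]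
    rw [enorm_mul]
    congr 1
    rw [← ofReal_norm_eq_enorm, Complex.norm_natCast, ENNReal.ofReal_natCast]
  have h2 : II mu k (fun t => q 0 t ^ k / (k.factorial : ℂ)) ≤ II mu k (u k) +
      II mu k (fun t => u k t - q 0 t ^ k / (k.factorial : ℂ)) := by
    have e : (fun t => q 0 t ^ k / (k.factorial : ℂ)) = fun t => u k t +
        (-(u k t - q 0 t ^ k / (k.factorial : ℂ))) := by
      funext t; ring
    rw [e]
    refine (II_add hk (hD.mu k)).trans ?_
    gcongr
    exact II_mono fun t => by rw [norm_neg]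
  calc s = (k.factorial : ℝ≥0∞) ^ ((2 : ℝ) / k) *
      II mu k (fun t => q 0 t ^ k / (k.factorial : ℂ)) := h1
    _ ≤ (k.factorial : ℝ≥0∞) ^ ((2 : ℝ) / k) * (II mu k (u k) +
        C * (max 1 s) ^ (((k : ℝ) - 1) / k)) := by
        gcongr
        exact h2.trans (by gcongr)
    _ ≤ (k.factorial : ℝ≥0∞) ^ ((2 : ℝ) / k) * ((1 + C) * (II mu k (u k) +
        (max 1 s) ^ (((k : ℝ) - 1) / k))) := by
        gcongr
        rw [mul_add]
        gcongr
        · calc II mu k (u k) = 1 * II mu k (u k) := (one_mul _).symm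
            _ ≤ _ := by gcongr; exact le_add_right le_rfl
        · exact le_add_left le_rfl
    _ = _ := by ring

theorem red (k : ℕ) (hk : 2 ≤ k) (i : ℕ) (hi : i ∈ ({1, 2, 3} : Finset ℕ)) :
    ∃ C : ℝ≥0∞, C ≠ ⊤ ∧ ∀ (S : Finset ℕ) (r : ℝ), 0 ≤ r → r ≤ 1 →
      ENNReal.ofReal (sq S r) ≤ C * (II mu k (fun t => TS i k S (zz r t)) +
        (max 1 (ENNReal.ofReal (sq S r))) ^ (((k : ℝ) - 1) / k)) := by
  obtain ⟨C, hC, -, hb⟩ := bound k
  have hCt : ((k.factorial : ℝ≥0∞) ^ ((2 : ℝ) / k) * (1 + C)) ≠ ⊤ := by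
    apply ENNReal.mul_ne_top
    · apply ENNReal.rpow_ne_top_of_nonneg (by positivity)
      exact ENNReal.natCast_ne_top _
    · finiteness
  simp only [Finset.mem_insert, Finset.mem_singleton] at hi
  rcases hi with rfl | rfl | rfl
  · refine ⟨1, by simp, fun S r hr hr1 => ?_⟩
    have h : II mu k (fun t => TS 1 k S (zz r t)) = ENNReal.ofReal (sq S r) := by
      simp_rw [TS_one]
      rw [II_pow (by omega)]
      have := ps_one S r
      unfold ps at this
      simpa using this
    rw [h, one_mul]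
    exact le_add_right le_rfl
  · refine ⟨_, hCt, fun S r hr hr1 => ?_⟩
    have hD := data_mt S hr hr1
    have h1 := (hb mu _ _ _ hD k (by omega) le_rfl).2
    have h2 := of_data (u := fun k t => mt S (fun a => zz r t ^ a) k)
      (q := fun j t => ps S (fun a => zz r t ^ a) (j + 1)) hk hD (ps_one S r) h1
    have e : (fun t => TS 2 k S (zz r t)) = fun t => mt S (fun a => zz r t ^ a) k := by
      funext t; exact TS_two k S _
    rw [e]
    exact h2
  · refine ⟨_, hCt, fun S r hr hr1 => ?_⟩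
    have hD := data_st S hr hr1
    have h1 := (hb mu _ _ _ hD k (by omega) le_rfl).2
    have h0 : II mu 1 ((fun j t => (-1) ^ j * ps S (fun a => zz r t ^ a) (j + 1)) 0) =
        ENNReal.ofReal (sq S r) := by
      rw [← ps_one S r]
      congr 1
      funext t
      simp
    have h2 := of_data (u := fun k t => st S (fun a => zz r t ^ a) k)
      (q := fun j t => (-1) ^ j * ps S (fun a => zz r t ^ a) (j + 1)) hk hD h0 h1
    have e : (fun t => TS 3 k S (zz r t)) = fun t => st S (fun a => zz r t ^ a) k := by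
      funext t; exact TS_three k S _
    rw [e]
    exact h2

end Pool.Agent.NH11.RM
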